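import Pool.Agent.H16.FK.TargetsA

/-!
# Row AT: symmetric far rows and an s-part
-/

set_option autoImplicit false

namespace Pool.Agent.H41.FKI

open Set Pool.Agent.H75.HCI Pool.Agent.H16.FK

variable {kx k : ℕ} {L : Type} {T : List (Idx kx k) → L}

lemma exists_sel {α : Type} (l : List α) : ∀ l' : List α, l' ⊆ l → ∃ w, sel l w = l'
  | [], _ => ⟨[], rfl⟩
  | x :: l', h => by
    obtain ⟨w, hw⟩ := exists_sel l l' fun y hy => h (List.mem_cons_of_mem _ hy)
    obtain ⟨i, hi⟩ := List.getElem?_of_mem (h (List.mem_cons_self ..))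
    refine ⟨i :: w, ?_⟩
    unfold sel at hw ⊢
    rw [List.filterMap_cons, hi, hw]

/-- types of sublists of images -/
lemma ft_map {α : Type} (hft : FTx T) (g h : α → Idx kx k) {l l' : List α} (hl : l' ⊆ l)
    (e : T (l.map g) = T (l.map h)) : T (l'.map g) = T (l'.map h) := by
  obtain ⟨w, rfl⟩ := exists_sel l l' hl
  have h1 := hft (l.map g) (l.map h) w (by simp) e
  rwa [sel_map, sel_map] at h1

/-- shifts of chunks -/
lemma pat_shift (hpat : PatInv T) (φ : ℕ → ℕ) (A : Set (Idx kx k))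
    (hφ : ∀ p ∈ A, ∀ q ∈ A, (φ p.1 < φ q.1 ↔ p.1 < q.1)) (l : List (Idx kx k))
    (hl : ∀ x ∈ l, x ∈ A) : T (l.map fun p => (φ p.1, p.2)) = T l := by
  refine hpat (fun p => (φ p.1, p.2)) A ⟨fun p _ => rfl, hφ, ?_⟩ l hl
  intro p _ q _ _ u u' v v' h1 h2 h3 h4
  have h3' : p.2 = .inr u' := h3
  have h4' : q.2 = .inr v' := h4
  rw [h1] at h3'
  rw [h2] at h4'
  rw [← Sum.inr.inj h3', ← Sum.inr.inj h4']

lemma mem_hubA {i : ℕ} {p : Idx kx k} : p ∈ (hubA i : List (Idx kx k)) ↔
    ∃ b, p = (i, .inl b) := by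
  unfold hubA hub
  rw [List.mem_map]
  constructor
  · rintro ⟨b, -, rfl⟩
    exact ⟨b, rfl⟩
  · rintro ⟨b, rfl⟩
    exact ⟨b, List.mem_finRange b, rfl⟩

lemma mem_row {i m : ℕ} {p : Idx kx k} : p ∈ (row i m : List (Idx kx k)) ↔
    ∃ y, p = (i, .inr (m, y)) := by
  unfold row prt
  rw [List.mem_map]
  constructor
  · rintro ⟨b, -, rfl⟩
    exact ⟨b, rfl⟩
  · rintro ⟨b, rfl⟩
    exact ⟨b, List.mem_finRange b, rfl⟩

lemma map_hubA (i : ℕ) (g : Idx kx k → Idx kx k) (i' : ℕ)
    (hg : ∀ b, g (i, .inl b) = (i', .inl b)) : (hubA i).map g = (hubA i' : List (Idx kx k)) := by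
  unfold hubA hub
  rw [List.map_map]
  exact List.map_congr_left fun b _ => hg b

lemma map_row (i m : ℕ) (g : Idx kx k → Idx kx k) (i' m' : ℕ)
    (hg : ∀ y, g (i, .inr (m, y)) = (i', .inr (m', y))) :
    (row i m).map g = (row i' m' : List (Idx kx k)) := by
  unfold row prt
  rw [List.map_map]
  exact List.map_congr_left fun b _ => hg b

lemma swap_perm (js : List ℕ) (hnd : js.Nodup) {a b : ℕ} (ha : a ∈ js) (hb : b ∈ js) :
    (js.map (Equiv.swap a b)).Perm js := by
  have hm : ∀ x ∈ js, Equiv.swap a b x ∈ js := by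
    intro x hx
    by_cases h1 : x = a
    · rw [h1, Equiv.swap_apply_left]
      exact hb
    · by_cases h2 : x = b
      · rw [h2, Equiv.swap_apply_right]
        exact ha
      · rw [Equiv.swap_apply_of_ne_of_ne h1 h2]
        exact hx
  refine (List.perm_ext_iff_of_nodup (hnd.map (Equiv.swap a b).injective) hnd).2 fun x => ?_
  rw [List.mem_map]
  constructor
  · rintro ⟨y, hy, rfl⟩
    exact hm y hy
  · intro hx
    exact ⟨_, hm x hx, Equiv.swap_apply_self a b x⟩

theorem core (hk : 1 ≤ k) (hpat : PatInv T) (hft : FTx T) (hfar : ∀ q, FarS T q)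
    {cl : Fin kx → Fin kx} {In : Set (Fin kx)} (hS : SPart T (ec cl) univ (BP In)) (m : ℕ) :
    T (hubA 1 ++ row 1 m) = T (hubA 1 ++ row 2 0) := by
  classical
  let y0 : Fin k := ⟨0, hk⟩
  -- the sets of classes
  let Z : Finset (ℕ × Fin kx) := Finset.range 2 ×ˢ Finset.univ
  let cz : ℕ × Fin kx → ℕ × (Fin kx ⊕ ℕ) := fun q => (q.1, .inl (cl q.2))
  let Cc : Finset (ℕ × (Fin kx ⊕ ℕ)) := (Z.filter fun q => cl q.2 ∉ In).image cz
  let D1 : Finset (ℕ × (Fin kx ⊕ ℕ)) := (Z.filter fun q => cl q.2 ∈ In).image cz ∪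
    {(1, .inr m), (2, .inr 0)}
  let n := D1.card
  let D2 : Finset (ℕ × (Fin kx ⊕ ℕ)) := (Finset.range n).image fun t => (3 + t, .inr 0)
  have hcard : D1.card = D2.card := by
    have h1 : D2.card = (Finset.range n).card := by
      refine Finset.card_image_of_injective _ fun a b hab => ?_
      have h2 : 3 + a = 3 + b := congrArg Prod.fst hab
      omega
    rw [h1, Finset.card_range]
  obtain ⟨f, hf, him, hfix⟩ := hS.hom Cc D1 D2
    (by
      intro c hc hcB
      obtain ⟨q, hq, rfl⟩ := Finset.mem_image.1 hc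
      exact (Finset.mem_filter.1 hq).2 (hcB (cl q.2) rfl))
    (by
      intro c hc β hβ
      rcases Finset.mem_union.1 hc with h | h
      · obtain ⟨q, hq, rfl⟩ := Finset.mem_image.1 h
        have h2 : cl q.2 = β := Sum.inl.inj hβ
        rw [← h2]
        exact (Finset.mem_filter.1 hq).2
      · rw [Finset.mem_insert, Finset.mem_singleton] at h
        rcases h with rfl | rfl
        · exact absurd hβ (by simp)
        · exact absurd hβ (by simp))
    (by
      intro c hc β hβ
      obtain ⟨t, -, rfl⟩ := Finset.mem_image.1 hc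
      exact absurd hβ (by simp)) hcard
  set A : Set (Idx kx k) := Pt (ec cl) univ ((Cc : Set _) ∪ D1) with hA
  -- membership
  have hZ : ∀ i < 2, ∀ b : Fin kx, (i, b) ∈ Z := fun i hi b => by
    rw [Finset.mem_product]
    exact ⟨Finset.mem_range.2 hi, Finset.mem_univ _⟩
  have hO : ∀ i < 2, ∀ b : Fin kx, cl b ∉ In → f (i, .inl b) = (i, .inl b) := fun i hi b hb =>
    hfix _ ⟨mem_univ _, Finset.mem_coe.2 (Finset.mem_image.2
      ⟨(i, b), Finset.mem_filter.2 ⟨hZ i hi b, hb⟩, rfl⟩)⟩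
  have hD1h : ∀ i < 2, ∀ b : Fin kx, cl b ∈ In →
      ((i, .inl b) : Idx kx k) ∈ Pt (ec cl) univ (D1 : Set _) := fun i hi b hb =>
    ⟨mem_univ _, Finset.mem_coe.2 (Finset.mem_union_left _ (Finset.mem_image.2
      ⟨(i, b), Finset.mem_filter.2 ⟨hZ i hi b, hb⟩, rfl⟩))⟩
  have hD1r : ∀ y, ((1, .inr (m, y)) : Idx kx k) ∈ Pt (ec cl) univ (D1 : Set _) := fun y =>
    ⟨mem_univ _, Finset.mem_coe.2 (Finset.mem_union_right _ (by
      rw [Finset.mem_insert]
      exact Or.inl rfl))⟩
  have hD1s : ∀ y, ((2, .inr (0, y)) : Idx kx k) ∈ Pt (ec cl) univ (D1 : Set _) := fun y =>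
    ⟨mem_univ _, Finset.mem_coe.2 (Finset.mem_union_right _ (by
      rw [Finset.mem_insert, Finset.mem_singleton]
      exact Or.inr rfl))⟩
  have hDA : ∀ p : Idx kx k, p ∈ Pt (ec cl) univ (D1 : Set _) → p ∈ A := fun p hp =>
    ⟨mem_univ _, Or.inr hp.2⟩
  have hHA : ∀ i < 2, ∀ b : Fin kx, ((i, .inl b) : Idx kx k) ∈ A := fun i hi b => by
    by_cases hb : cl b ∈ In
    · exact hDA _ (hD1h i hi b hb)
    · exact ⟨mem_univ _, Or.inl (Finset.mem_coe.2 (Finset.mem_image.2
        ⟨(i, b), Finset.mem_filter.2 ⟨hZ i hi b, hb⟩, rfl⟩))⟩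
  -- points of the classes in D2
  have hD2 : ∀ p : Idx kx k, p ∈ Pt (ec cl) univ (D1 : Set _) →
      ∃ t y, t < n ∧ f p = (3 + t, .inr (0, y)) := by
    intro p hp
    have h1 : f p ∈ Pt (ec cl) univ (D2 : Set _) := by
      rw [← him]
      exact mem_image_of_mem f hp
    obtain ⟨-, h2⟩ := h1
    obtain ⟨t, ht, h3⟩ := Finset.mem_image.1 (Finset.mem_coe.1 h2)
    rw [Finset.mem_range] at ht
    generalize f p = q at h3
    obtain ⟨i, z⟩ := q
    rcases z with b | ⟨m', y⟩
    · exact absurd (congrArg Prod.snd h3) (by simp [ec])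
    · have h4 : 3 + t = i := congrArg Prod.fst h3
      have h5 : (0 : ℕ) = m' := Sum.inr.inj (congrArg Prod.snd h3)
      exact ⟨t, y, ht, by rw [h4, ← h5]⟩
  obtain ⟨tp, yp, htp, hfp⟩ := hD2 _ (hD1r y0)
  obtain ⟨tq, yq, htq, hfq⟩ := hD2 _ (hD1s y0)
  have hα : ∀ y, ∃ y', f (1, .inr (m, y)) = (3 + tp, .inr (0, y')) := by
    intro y
    obtain ⟨t, y', -, h1⟩ := hD2 _ (hD1r y)
    have h2 := (hf.cls (1, .inr (m, y)) (hDA _ (hD1r y)) (1, .inr (m, y0)) (hDA _ (hD1r y0))).2 rfl
    rw [h1, hfp] at h2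
    have h3 : 3 + t = 3 + tp := congrArg Prod.fst h2
    exact ⟨y', by rw [h1, h3]⟩
  have hβ : ∀ y, ∃ y', f (2, .inr (0, y)) = (3 + tq, .inr (0, y')) := by
    intro y
    obtain ⟨t, y', -, h1⟩ := hD2 _ (hD1s y)
    have h2 := (hf.cls (2, .inr (0, y)) (hDA _ (hD1s y)) (2, .inr (0, y0)) (hDA _ (hD1s y0))).2 rfl
    rw [h1, hfq] at h2
    have h3 : 3 + t = 3 + tq := congrArg Prod.fst h2
    exact ⟨y', by rw [h1, h3]⟩
  choose α hα using hα
  choose β hβ using hβ
  have hβi : Function.Injective β := by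
    intro y y' h
    have h1 := hf.inj (hDA _ (hD1s y)) (hDA _ (hD1s y')) (by rw [hβ, hβ, h])
    have h2 : ((0, y) : ℕ × Fin k) = (0, y') := Sum.inr.inj (congrArg Prod.snd h1)
    exact congrArg Prod.snd h2
  have hβb : Function.Bijective β := Finite.injective_iff_bijective.1 hβi
  let βe : Fin k ≃ Fin k := Equiv.ofBijective β hβb
  let γ : Fin k → Fin k := fun y => βe.symm (α y)
  have hγ : ∀ y, β (γ y) = α y := fun y => βe.apply_symm_apply (α y)
  have hpq : tp ≠ tq := by
    intro h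
    have h1 := (hf.cls (1, .inr (m, y0)) (hDA _ (hD1r y0)) (2, .inr (0, y0))
      (hDA _ (hD1s y0))).1 (by rw [hα, hβ, h]; rfl)
    have h2 : (1 : ℕ) = 2 := congrArg Prod.fst h1
    omega
  -- the exchange of the two far rows
  let σ : Idx kx k → Idx kx k := fun p => (Equiv.swap (3 + tp) (3 + tq) p.1, p.2)
  let js : List ℕ := (List.range n).map fun t => 3 + t
  have hjs : js.Pairwise (· < ·) := by
    rw [List.pairwise_map]
    exact List.pairwise_lt_range.imp fun h => by omega
  have hjm : ∀ t < n, 3 + t ∈ js := fun t ht => List.mem_map.2 ⟨t, List.mem_range.2 ht, rfl⟩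
  have hj3 : ∀ j ∈ js, 3 ≤ j := fun j hj => by
    obtain ⟨t, -, rfl⟩ := List.mem_map.1 hj
    omega
  let L0 : List (Idx kx k) := (hubA 0 ++ hubA 1) ++ (js.map fun j => row j 0).flatten
  have hσL : T (L0.map σ) = T L0 := by
    have h1 := hfar js.length 2 (hubA 0 ++ hubA 1) js
      (js.map (Equiv.swap (3 + tp) (3 + tq))) ?_ hjs (fun j hj => (by omega : 2 ≤ 3).trans (hj3 j hj))
      le_rfl (swap_perm js (hjs.imp fun h => h.ne) (hjm tp htp) (hjm tq htq))
    · rw [← h1]
      congr 1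
      change ((hubA 0 ++ hubA 1) ++ (js.map fun j => row j 0).flatten).map σ = _
      rw [List.map_append, List.map_append]
      congr 1
      · have h2 : ∀ i < 2, (hubA i : List (Idx kx k)).map σ = hubA i := fun i hi =>
          map_hubA i σ i fun b => by
            change (Equiv.swap (3 + tp) (3 + tq) i, _) = _
            rw [Equiv.swap_apply_of_ne_of_ne (by omega) (by omega)]
        rw [h2 0 (by omega), h2 1 (by omega)]
      · rw [List.map_flatten]
        congr 1
        have e1 : (js.map fun j => row j 0).map (List.map σ) =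
            js.map fun j => (row (Equiv.swap (3 + tp) (3 + tq) j) 0 : List (Idx kx k)) := by
          rw [List.map_map]
          exact List.map_congr_left fun j _ => map_row j 0 σ _ 0 fun y => rfl
        have e2 : (js.map (Equiv.swap (3 + tp) (3 + tq))).map (fun j => row j 0) =
            js.map fun j => (row (Equiv.swap (3 + tp) (3 + tq) j) 0 : List (Idx kx k)) := by
          rw [List.map_map]
          rfl
        rw [e1, e2]
    · intro p hp
      rcases List.mem_append.1 hp with h | h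
      · obtain ⟨b, rfl⟩ := mem_hubA.1 h
        exact (by omega : (0 : ℕ) < 2)
      · obtain ⟨b, rfl⟩ := mem_hubA.1 h
        exact (by omega : (1 : ℕ) < 2)
  have hσ : ∀ l : List (Idx kx k), l ⊆ L0 → T (l.map σ) = T l := by
    intro l hl
    have h1 := ft_map hft σ id hl (by rw [List.map_id]; exact hσL)
    rwa [List.map_id] at h1
  -- the map h
  let h : Idx kx k → Idx kx k := fun p => if p.1 = 1 then
    p.2.elim (fun b => (1, .inl b)) fun u => (2, .inr (0, γ u.2)) else p
  have hh0 : ∀ b, h (0, .inl b) = (0, .inl b) := fun b => rfl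
  have hh1 : ∀ b, h (1, .inl b) = (1, .inl b) := fun b => rfl
  have hhr : ∀ y, h (1, .inr (m, y)) = (2, .inr (0, γ y)) := fun y => rfl
  have hcomm : ∀ p : Idx kx k, (∃ i < 2, ∃ b, p = (i, .inl b)) ∨ (∃ y, p = (1, .inr (m, y))) →
      σ (f p) = f (h p) ∧ f p ∈ L0 ∧ p ∈ A ∧ h p ∈ A := by
    rintro p (⟨i, hi, b, rfl⟩ | ⟨y, rfl⟩)
    · have hhb : h (i, .inl b) = (i, .inl b) := by
        rcases (by omega : i = 0 ∨ i = 1) with rfl | rfl <;> rfl
      rw [hhb]
      by_cases hb : cl b ∈ In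
      · obtain ⟨t, y, ht, h1⟩ := hD2 _ (hD1h i hi b hb)
        have ht1 : t ≠ tp := by
          intro e
          have h2 := (hf.cls (i, .inl b) (hHA i hi b) (1, .inr (m, y0)) (hDA _ (hD1r y0))).1
            (by rw [h1, hα, e]; rfl)
          exact absurd (congrArg Prod.snd h2) (by simp [ec])
        have ht2 : t ≠ tq := by
          intro e
          have h2 := (hf.cls (i, .inl b) (hHA i hi b) (2, .inr (0, y0)) (hDA _ (hD1s y0))).1
            (by rw [h1, hβ, e]; rfl)
          exact absurd (congrArg Prod.snd h2) (by simp [ec])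
        refine ⟨?_, ?_, hHA i hi b, hHA i hi b⟩
        · rw [h1]
          change (Equiv.swap (3 + tp) (3 + tq) (3 + t), _) = _
          rw [Equiv.swap_apply_of_ne_of_ne (by omega) (by omega)]
        · rw [h1]
          refine List.mem_append_right _ (List.mem_flatten.2 ⟨row (3 + t) 0, ?_, ?_⟩)
          · exact List.mem_map.2 ⟨3 + t, hjm t ht, rfl⟩
          · exact mem_row.2 ⟨y, rfl⟩
      · rw [hO i hi b hb]
        refine ⟨?_, ?_, hHA i hi b, hHA i hi b⟩
        · change (Equiv.swap (3 + tp) (3 + tq) i, _) = _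
          rw [Equiv.swap_apply_of_ne_of_ne (by omega) (by omega)]
        · refine List.mem_append_left _ ?_
          rcases (by omega : i = 0 ∨ i = 1) with rfl | rfl
          · exact List.mem_append_left _ (mem_hubA.2 ⟨b, rfl⟩)
          · exact List.mem_append_right _ (mem_hubA.2 ⟨b, rfl⟩)
    · rw [hhr, hα, hβ, hγ]
      refine ⟨?_, ?_, hDA _ (hD1r y), hDA _ (hD1s _)⟩
      · change (Equiv.swap (3 + tp) (3 + tq) (3 + tp), _) = _
        rw [Equiv.swap_apply_left]
      · refine List.mem_append_right _ (List.mem_flatten.2 ⟨row (3 + tp) 0, ?_, ?_⟩)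
        · exact List.mem_map.2 ⟨3 + tp, hjm tp htp, rfl⟩
        · exact mem_row.2 ⟨_, rfl⟩
  -- the main equality
  have hmain : ∀ l : List (Idx kx k), (∀ p ∈ l, (∃ i < 2, ∃ b, p = (i, .inl b)) ∨
      (∃ y, p = (1, .inr (m, y)))) → T (l.map h) = T l := by
    intro l hl
    have e1 : T (l.map f) = T l := hf.lab l fun x hx => (hcomm x (hl x hx)).2.2.1
    have e2 : T ((l.map f).map σ) = T (l.map f) := hσ _ fun x hx => by
      obtain ⟨p, hp, rfl⟩ := List.mem_map.1 hx
      exact (hcomm p (hl p hp)).2.1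
    have e3 : T ((l.map h).map f) = T (l.map h) := hf.lab _ fun x hx => by
      obtain ⟨p, hp, rfl⟩ := List.mem_map.1 hx
      exact (hcomm p (hl p hp)).2.2.2
    have e4 : (l.map f).map σ = (l.map h).map f := by
      rw [List.map_map, List.map_map]
      exact List.map_congr_left fun p hp => (hcomm p (hl p hp)).1
    rw [← e3, ← e4, e2, e1]
  -- the twist
  let δ : Idx kx k → Idx kx k := fun p => if p.1 = 2 then
    (2, p.2.elim (fun b => .inl b) fun u => .inr (0, γ u.2)) else p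
  have hδ0 : ∀ b, δ (0, .inl b) = (0, .inl b) := fun b => rfl
  have hδ1 : ∀ b, δ (1, .inl b) = (1, .inl b) := fun b => rfl
  have hδr : ∀ y, δ (2, .inr (0, y)) = (2, .inr (0, γ y)) := fun y => rfl
  have hd0 : T ((hubA 0 ++ row 2 0).map δ) = T (hubA 0 ++ row 2 0) := by
    have h1 := hmain (hubA 0 ++ row 1 m) fun p hp => by
      rcases List.mem_append.1 hp with h | h
      · obtain ⟨b, rfl⟩ := mem_hubA.1 h
        exact Or.inl ⟨0, by omega, b, rfl⟩
      · exact Or.inr (mem_row.1 h)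
    let π : Idx kx k → Idx kx k := fun p => if p.1 = 1 then
      (2, p.2.elim (fun b => .inl b) fun u => .inr (0, u.2)) else p
    have h2 : T ((hubA 0 ++ row 1 m).map π) = T (hubA 0 ++ row 1 m) := by
      refine hpat π {p | (∃ b, p = (0, .inl b)) ∨ ∃ y, p = (1, .inr (m, y))} ⟨?_, ?_, ?_⟩ _ ?_
      · rintro p (⟨b, rfl⟩ | ⟨y, rfl⟩) <;> rfl
      · rintro p (⟨b, rfl⟩ | ⟨y, rfl⟩) q (⟨b', rfl⟩ | ⟨y', rfl⟩) <;> simp [π]
      · rintro p (⟨b, rfl⟩ | ⟨y, rfl⟩) q (⟨b', rfl⟩ | ⟨y', rfl⟩) hpq u u' v v' k1 k2 k3 k4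
        · simp at k1
        · simp at k1
        · simp at k2
        · have m1 : ((m, y) : ℕ × Fin k) = u := Sum.inr.inj k1
          have m2 : ((m, y') : ℕ × Fin k) = v := Sum.inr.inj k2
          have m3 : ((0, y) : ℕ × Fin k) = u' := Sum.inr.inj k3
          have m4 : ((0, y') : ℕ × Fin k) = v' := Sum.inr.inj k4
          rw [← m1, ← m2, ← m3, ← m4]
          simp
      · intro p hp
        rcases List.mem_append.1 hp with h | h
        · exact Or.inl (mem_hubA.1 h)
        · exact Or.inr (mem_row.1 h)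
    have h3 : (hubA 0 ++ row 1 m).map π = (hubA 0 ++ row 2 0 : List (Idx kx k)) := by
      rw [List.map_append]
      congr 1
      · exact map_hubA 0 π 0 fun b => rfl
      · exact map_row 1 m π 2 0 fun y => rfl
    have h4 : (hubA 0 ++ row 1 m).map h = ((hubA 0 ++ row 2 0 : List (Idx kx k))).map δ := by
      rw [← h3, List.map_map]
      refine List.map_congr_left fun p hp => ?_
      rcases List.mem_append.1 hp with h | h
      · obtain ⟨b, rfl⟩ := mem_hubA.1 h
        rfl
      · obtain ⟨y, rfl⟩ := mem_row.1 h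
        rfl
    rw [← h4, h1, ← h2, h3]
  have hd1 : T ((hubA 1 ++ row 2 0).map δ) = T (hubA 1 ++ row 2 0) := by
    let φ : ℕ → ℕ := fun i => if i = 0 then 1 else i
    have hsh : ∀ l : List (Idx kx k), (∀ x ∈ l, x.1 = 0 ∨ x.1 = 2) →
        T (l.map fun p => (φ p.1, p.2)) = T l := by
      intro l hl
      refine pat_shift hpat φ {p | p.1 = 0 ∨ p.1 = 2} ?_ l hl
      rintro p (h1 | h1) q (h2 | h2) <;> simp [φ, h1, h2]
    have k1 : (hubA 0 ++ row 2 0 : List (Idx kx k)).map (fun p => (φ p.1, p.2)) =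
        hubA 1 ++ row 2 0 := by
      rw [List.map_append]
      congr 1
      · exact map_hubA 0 _ 1 fun b => rfl
      · exact map_row 2 0 _ 2 0 fun y => rfl
    have k2 : ((hubA 0 ++ row 2 0 : List (Idx kx k)).map δ).map (fun p => (φ p.1, p.2)) =
        (hubA 1 ++ row 2 0).map δ := by
      rw [← k1, List.map_map, List.map_map]
      refine List.map_congr_left fun p hp => ?_
      rcases List.mem_append.1 hp with h | h
      · obtain ⟨b, rfl⟩ := mem_hubA.1 h
        rfl
      · obtain ⟨y, rfl⟩ := mem_row.1 h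
        rfl
    rw [← k2, hsh, hd0, ← k1, hsh]
    · intro x hx
      rcases List.mem_append.1 hx with h | h
      · obtain ⟨b, rfl⟩ := mem_hubA.1 h
        exact Or.inl rfl
      · obtain ⟨y, rfl⟩ := mem_row.1 h
        exact Or.inr rfl
    · intro x hx
      obtain ⟨p, hp, rfl⟩ := List.mem_map.1 hx
      rcases List.mem_append.1 hp with h | h
      · obtain ⟨b, rfl⟩ := mem_hubA.1 h
        exact Or.inl rfl
      · obtain ⟨y, rfl⟩ := mem_row.1 h
        exact Or.inr rfl
  have hfin := hmain (hubA 1 ++ row 1 m) fun p hp => by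
    rcases List.mem_append.1 hp with h | h
    · obtain ⟨b, rfl⟩ := mem_hubA.1 h
      exact Or.inl ⟨1, by omega, b, rfl⟩
    · exact Or.inr (mem_row.1 h)
  rw [← hfin, ← hd1]
  congr 1
  rw [List.map_append, List.map_append]
  congr 1
  · rw [map_hubA 1 h 1 hh1, map_hubA 1 δ 1 hδ1]
  · unfold row prt
    rw [List.map_map, List.map_map]
    exact List.map_congr_left fun y _ => rfl

/-- Row AT. -/
theorem pf_AT : T_AT := by
  intro kx k L T cl In hk hpat hft hfar _ hS i m j hij
  have h0 := core hk hpat hft hfar hS m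
  -- shift the chunks
  let φ : ℕ → ℕ := fun a => if a = 1 then i else j
  have hsh : ∀ l : List (Idx kx k), (∀ x ∈ l, x.1 = 1 ∨ x.1 = 2) →
      T (l.map fun p => (φ p.1, p.2)) = T l := by
    intro l hl
    refine pat_shift hpat φ {p | p.1 = 1 ∨ p.1 = 2} ?_ l hl
    rintro p (h1 | h1) q (h2 | h2)
    · simp [h1, h2]
    · simp [φ, h1, h2, hij]
    · simp only [h1, h2, φ]
      simp
      omega
    · simp [h1, h2]
  have k1 : (hubA 1 ++ row 1 m : List (Idx kx k)).map (fun p => (φ p.1, p.2)) =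
      hubA i ++ row i m := by
    rw [List.map_append]
    congr 1
    · exact map_hubA 1 _ i fun b => rfl
    · exact map_row 1 m _ i m fun y => rfl
  have k2 : (hubA 1 ++ row 2 0 : List (Idx kx k)).map (fun p => (φ p.1, p.2)) =
      hubA i ++ row j 0 := by
    rw [List.map_append]
    congr 1
    · exact map_hubA 1 _ i fun b => rfl
    · exact map_row 2 0 _ j 0 fun y => rfl
  rw [← k1, ← k2, hsh, hsh, h0]
  · intro x hx
    rcases List.mem_append.1 hx with h | h
    · obtain ⟨b, rfl⟩ := mem_hubA.1 h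
      exact Or.inl rfl
    · obtain ⟨y, rfl⟩ := mem_row.1 h
      exact Or.inr rfl
  · intro x hx
    rcases List.mem_append.1 hx with h | h
    · obtain ⟨b, rfl⟩ := mem_hubA.1 h
      exact Or.inl rfl
    · obtain ⟨y, rfl⟩ := mem_row.1 h
      exact Or.inl rfl

end Pool.Agent.H41.FKI
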