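import Pool.Agent.H41.FKI.RunB
import Pool.Agent.H41.FKI.AT

/-!
# Row REAL: realisation of the random array
-/

set_option autoImplicit false

namespace Pool.Agent.H41.FKI

open Set Pool.Agent.H75.HCI Pool.Agent.H16.FK Pool.Agent.H41.HI

variable {C : Type} {kc ku k : ℕ} {D : Dat kc ku k}

/-! ## Ranks -/

lemma rk_lt {α : Type} (A : Finset α) (P : α → Prop) [DecidablePred P] (f : α → ℕ)
    {x y : α} (hx : x ∈ A) (hPx : P x) :
    (A.filter fun a => P a ∧ f a < f x).card < (A.filter fun a => P a ∧ f a < f y).card ↔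
      f x < f y := by
  constructor
  · intro h
    by_contra hcon
    push Not at hcon
    refine absurd (Finset.card_le_card ?_) (not_le.2 h)
    intro a ha
    rw [Finset.mem_filter] at ha ⊢
    exact ⟨ha.1, ha.2.1, ha.2.2.trans_le hcon⟩
  · intro h
    refine Finset.card_lt_card ⟨fun a ha => ?_, fun hsub => ?_⟩
    · rw [Finset.mem_filter] at ha ⊢
      exact ⟨ha.1, ha.2.1, ha.2.2.trans h⟩
    · have h1 : x ∈ A.filter fun a => P a ∧ f a < f y := Finset.mem_filter.2 ⟨hx, hPx, h⟩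
      have h2 := hsub h1
      rw [Finset.mem_filter] at h2
      exact lt_irrefl _ h2.2.2

lemma rk_bound {α : Type} (A : Finset α) (P : α → Prop) [DecidablePred P] (f : α → ℕ)
    {x : α} (hx : x ∈ A) : (A.filter fun a => P a ∧ f a < f x).card < A.card := by
  refine Finset.card_lt_card ⟨Finset.filter_subset _ _, fun hsub => ?_⟩
  have h2 := hsub hx
  rw [Finset.mem_filter] at h2
  exact lt_irrefl _ h2.2.2

/-- the row of a point -/
def rowOf (p : Idx (kc + ku) k) : Option (ℕ × ℕ) := p.2.elim (fun _ => none) fun q => some (p.1, q.1)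

/-- the rank of the chunk `c` -/
def cr (l : List (Idx (kc + ku) k)) (N c : ℕ) : ℕ :=
  ((l.map Prod.fst).toFinset.filter fun c' => N ≤ c' ∧ c' < c).card

/-- the rank of the row `m` in the chunk `c` -/
def rr (l : List (Idx (kc + ku) k)) (c m : ℕ) : ℕ :=
  ((l.filterMap rowOf).toFinset.filter fun x => x.1 = c ∧ x.2 < m).card

/-- the normal form of the points in chunks from `N` on -/
def nrm (l : List (Idx (kc + ku) k)) (N : ℕ) (p : Idx (kc + ku) k) : Idx (kc + ku) k :=
  if p.1 < N then p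
  else (N + cr l N p.1, p.2.elim (fun b => .inl b) fun q => .inr (rr l p.1 q.1, q.2))

lemma nrm_lt {l : List (Idx (kc + ku) k)} {N : ℕ} {p : Idx (kc + ku) k} (h : p.1 < N) :
    nrm l N p = p := if_pos h

lemma nrm_ge {l : List (Idx (kc + ku) k)} {N : ℕ} {p : Idx (kc + ku) k} (h : N ≤ p.1) :
    nrm l N p =
      (N + cr l N p.1, p.2.elim (fun b => .inl b) fun q => .inr (rr l p.1 q.1, q.2)) :=
  if_neg (not_lt.2 h)

lemma mem_chunks {l : List (Idx (kc + ku) k)} {p : Idx (kc + ku) k} (hp : p ∈ l) :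
    p.1 ∈ (l.map Prod.fst).toFinset := List.mem_toFinset.2 (List.mem_map.2 ⟨p, hp, rfl⟩)

lemma mem_rowsOf {l : List (Idx (kc + ku) k)} {i : ℕ} {q : ℕ × Fin k}
    (hp : ((i, .inr q) : Idx (kc + ku) k) ∈ l) :
    (i, q.1) ∈ (l.filterMap rowOf).toFinset :=
  List.mem_toFinset.2 (List.mem_filterMap.2 ⟨_, hp, rfl⟩)

lemma cr_bound {l : List (Idx (kc + ku) k)} {N : ℕ} {p : Idx (kc + ku) k} (hp : p ∈ l) :
    cr l N p.1 < l.length := by
  have h1 := rk_bound (l.map Prod.fst).toFinset (fun c' => N ≤ c') (fun c' => c') (mem_chunks hp)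
  refine lt_of_lt_of_le h1 ((List.toFinset_card_le _).trans ?_)
  rw [List.length_map]

lemma rr_bound {l : List (Idx (kc + ku) k)} {i : ℕ} {q : ℕ × Fin k}
    (hp : ((i, .inr q) : Idx (kc + ku) k) ∈ l) : rr l i q.1 < l.length := by
  have h1 := rk_bound (l.filterMap rowOf).toFinset (fun x => x.1 = i) (fun x => x.2)
    (mem_rowsOf hp)
  exact lt_of_lt_of_le h1 ((List.toFinset_card_le _).trans (List.length_filterMap_le _ _))

lemma patOn_nrm (l : List (Idx (kc + ku) k)) (N : ℕ) : PatOn (nrm l N) {p | p ∈ l} := by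
  constructor
  · intro p _
    by_cases h : p.1 < N
    · rw [nrm_lt h]
    · rw [nrm_ge (not_lt.1 h)]
      obtain ⟨i, b | q⟩ := p <;> rfl
  · intro p hp q hq
    by_cases h : p.1 < N
    · rw [nrm_lt h]
      by_cases h' : q.1 < N
      · rw [nrm_lt h']
      · rw [nrm_ge (not_lt.1 h')]
        change p.1 < N + _ ↔ _
        constructor
        · intro _
          omega
        · intro _
          omega
    · rw [nrm_ge (not_lt.1 h)]
      by_cases h' : q.1 < N
      · rw [nrm_lt h']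
        change N + _ < q.1 ↔ _
        constructor
        · intro _
          omega
        · intro _
          omega
      · rw [nrm_ge (not_lt.1 h')]
        change N + cr l N p.1 < N + cr l N q.1 ↔ _
        have h1 := rk_lt (l.map Prod.fst).toFinset (fun c' => N ≤ c') (fun c' => c')
          (y := q.1) (mem_chunks hp) (not_lt.1 h)
        rw [← h1]
        change N + (Finset.card _) < N + (Finset.card _) ↔ _
        constructor
        · intro h2
          exact Nat.lt_of_add_lt_add_left h2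
        · intro h2
          exact Nat.add_lt_add_left h2 N
  · intro p hp q hq hpq u u' v v' h1 h2 h3 h4
    by_cases h : p.1 < N
    · rw [nrm_lt h] at h3
      rw [nrm_lt (hpq ▸ h)] at h4
      rw [h1] at h3
      rw [h2] at h4
      rw [← Sum.inr.inj h3, ← Sum.inr.inj h4]
    · have h' : N ≤ q.1 := hpq ▸ not_lt.1 h
      rw [nrm_ge (not_lt.1 h)] at h3
      rw [nrm_ge h'] at h4
      obtain ⟨i, z⟩ := p
      obtain ⟨i', z'⟩ := q
      have hii : i = i' := hpq
      subst hii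
      have hz : z = .inr u := h1
      have hz' : z' = .inr v := h2
      subst hz
      subst hz'
      have e1 : u' = (rr l i u.1, u.2) := (Sum.inr.inj h3).symm
      have e2 : v' = (rr l i v.1, v.2) := (Sum.inr.inj h4).symm
      rw [e1, e2]
      exact rk_lt (l.filterMap rowOf).toFinset (fun x => x.1 = i) (fun x => x.2)
        (y := (i, v.1)) (mem_rowsOf hp) rfl

/-! ## The future program -/

/-- `r` full chunks with `r` rows -/
def fut (r N : ℕ) : List (ℕ × ℕ × ℕ) := ((List.range r).map fun t => N + t).flatMap (chk r)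

lemma chks_prg {s : ℕ → ℕ} {cs : List ℕ} (hcs : cs.Pairwise (· < ·)) :
    Prg ∅ (cs.flatMap fun i => chk (s i) i) :=
  prg_chunks hcs (fun _ => chk_fst) (fun _ => chk_ord) (fun _ => chk_val)
    fun i => by unfold chk; simp

lemma prg_aft {P0 : Set (ℕ × ℕ × ℕ)} {σ : List (ℕ × ℕ × ℕ)} (h : Prg ∅ σ)
    (h1 : ∀ a ∈ σ, ∀ b ∈ P0, ilt b a) : Prg P0 σ :=
  ⟨h.ord, h.val, h1, fun a ha => Or.inl ((h.sta a ha).resolve_right (by simp))⟩

lemma fut_pairwise (r N : ℕ) : ((List.range r).map fun t => N + t).Pairwise (· < ·) := by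
  rw [List.pairwise_map]
  exact List.pairwise_lt_range.imp fun h => by omega

lemma mem_fut {r N : ℕ} {p : Idx (kc + ku) k} (h1 : N ≤ p.1) (h2 : p.1 < N + r)
    (h3 : ∀ q, p.2 = .inr q → q.1 < r) : itp p ∈ fut r N := by
  refine List.mem_flatMap.2 ⟨p.1, List.mem_map.2 ⟨p.1 - N, List.mem_range.2 (by omega), by omega⟩,
    chk_mem h3⟩

lemma fst_fut {r N : ℕ} {a : ℕ × ℕ × ℕ} (ha : a ∈ fut r N) : N ≤ a.1 := by
  obtain ⟨i, hi, hi'⟩ := List.mem_flatMap.1 ha
  obtain ⟨t, -, rfl⟩ := List.mem_map.1 hi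
  rw [chk_fst a hi']
  omega

lemma prg_fut (r N : ℕ) : Prg ∅ (fut r N) := chks_prg (s := fun _ => r) (fut_pairwise r N)

lemma prg_cat (r N s : ℕ) : Prg ∅ (chk s N ++ fut r (N + 1)) := by
  have h1 : chk s N ++ fut r (N + 1) =
      (N :: (List.range r).map fun t => N + 1 + t).flatMap
        fun i => chk (if i = N then s else r) i := by
    rw [List.flatMap_cons, if_pos rfl]
    congr 1
    unfold fut
    refine List.flatMap_congr fun i hi => ?_
    obtain ⟨t, -, rfl⟩ := List.mem_map.1 hi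
    rw [if_neg (by omega)]
  rw [h1]
  refine chks_prg (s := fun i => if i = N then s else r) ?_
  rw [List.pairwise_cons]
  refine ⟨fun a ha => ?_, fut_pairwise r (N + 1)⟩
  obtain ⟨t, -, rfl⟩ := List.mem_map.1 ha
  omega

/-! ## Finite sets of lists -/

lemma finite_lists {α : Type} {A : Set α} (hA : A.Finite) (n : ℕ) :
    {l : List α | l.length ≤ n ∧ ∀ x ∈ l, x ∈ A}.Finite := by
  have : Finite A := hA
  refine ((List.finite_length_le A n).image fun l => l.map Subtype.val).subset ?_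
  rintro l ⟨h1, h2⟩
  refine ⟨l.pmap Subtype.mk h2, by simpa using h1, ?_⟩
  change (l.pmap Subtype.mk h2).map Subtype.val = l
  rw [List.map_pmap]
  simp

lemma finite_box (n s : ℕ) :
    {p : Idx (kc + ku) k | p.1 < n ∧ ∀ q, p.2 = .inr q → q.1 < s}.Finite := by
  let g : Fin n × (Fin (kc + ku) ⊕ Fin s × Fin k) → Idx (kc + ku) k := fun x =>
    (x.1, x.2.elim (fun b => .inl b) fun q => .inr (q.1, q.2))
  refine (Set.finite_range g).subset ?_
  rintro ⟨i, b | q⟩ ⟨h1, h2⟩
  · exact ⟨(⟨i, h1⟩, .inl b), rfl⟩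
  · exact ⟨(⟨i, h1⟩, .inr (⟨q.1, h2 q rfl⟩, q.2)), rfl⟩

/-! ## Good states -/

/-- the lists which are considered at the stage `N` -/
def CL (r : ℕ) (S : ℕ → ℕ) (N : ℕ) : Set (List (Idx (kc + ku) k)) :=
  {l | l.length ≤ r ∧ ∀ p ∈ l, (p.1 < N ∧ p ∈ V (kc + ku) k S) ∨
    (N ≤ p.1 ∧ p.1 < N + r ∧ ∀ q, p.2 = .inr q → q.1 < r)}

/-- the words which are considered -/
def CW (r : ℕ) (z : List ℕ) : Set (List ℕ) := {w | w.length ≤ r ∧ ∀ i ∈ w, i < z.length + r}

lemma finite_CL (r : ℕ) (S : ℕ → ℕ) (N : ℕ) :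
    (CL r S N : Set (List (Idx (kc + ku) k))).Finite := by
  refine (finite_lists (finite_box (kc := kc) (ku := ku) (k := k) (N + r)
    (r + ∑ i ∈ Finset.range N, S i)) r).subset ?_
  rintro l ⟨h1, h2⟩
  refine ⟨h1, fun p hp => ?_⟩
  rcases h2 p hp with ⟨h3, h4⟩ | ⟨-, h3, h4⟩
  · refine ⟨by omega, fun q hq => ?_⟩
    have h5 : q.1 < S p.1 := h4 q hq
    have h6 : S p.1 ≤ ∑ i ∈ Finset.range N, S i :=
      Finset.single_le_sum (f := S) (fun _ _ => Nat.zero_le _) (Finset.mem_range.2 h3)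
    omega
  · refine ⟨h3, fun q hq => ?_⟩
    have := h4 q hq
    omega

lemma finite_CW (r : ℕ) (z : List ℕ) : (CW r z).Finite :=
  (finite_lists (Set.finite_Iio (z.length + r)) r).subset fun w hw =>
    ⟨hw.1, fun i hi => hw.2 i hi⟩

/-- the generic continuations of the state have the right labels -/
def Good (M : List ℕ → C) (D : Dat kc ku k) (r : ℕ) (S : ℕ → ℕ) (N : ℕ)
    (st : Sta kc ku k) : Prop :=
  ∀ l ∈ CL r S N, ∀ w ∈ CW r D.z, ∀ᶠ s in (run D (fut r N) st : Filter (Sta kc ku k)),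
    M (sel (D.z ++ l.map s.pt) w) = TD M D l w

lemma good_zero {M : List ℕ → C} (hM : FinL M) (hTDV : T_TDV) (r : ℕ) (S : ℕ → ℕ)
    (st : Sta kc ku k) : Good M D r S 0 st := by
  intro l hl w hw
  refine hTDV C kc ku k M D hM l (fut r 0) (prg_fut r 0) (fun p hp => ?_) st w
  rcases hl.2 p hp with ⟨h1, -⟩ | ⟨h1, h2, h3⟩
  · omega
  · exact mem_fut h1 h2 h3

lemma itp_fst (p : Idx (kc + ku) k) : (itp p).1 = p.1 := rfl

lemma good_succ {M : List ℕ → C} (hM : FinL M) (hDIS : T_DIS) (hTDP : T_TDP) (r : ℕ)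
    (S : ℕ → ℕ) (N : ℕ) {st : Sta kc ku k} (h : Good M D r S N st) :
    ∀ᶠ st' in (run D (chk (S N) N) st : Filter (Sta kc ku k)), Good M D r S (N + 1) st' := by
  unfold Good
  rw [Filter.eventually_all_finite (finite_CL r S (N + 1))]
  intro l hl
  rw [Filter.eventually_all_finite (finite_CW r D.z)]
  intro w hw
  rw [← ev_append]
  have hpat := (hTDP C kc ku k M D hM).1
  have hP : PatOn (nrm l N) {p | p ∈ l} := patOn_nrm l N
  -- the normal form is a good list
  have hlr : l.length ≤ r := hl.1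
  have hcon : ∀ p ∈ l, N ≤ p.1 → N ≤ (nrm l N p).1 ∧ (nrm l N p).1 < N + r ∧
      ∀ q, (nrm l N p).2 = .inr q → q.1 < r := by
    intro p hp h1
    rw [nrm_ge h1]
    refine ⟨Nat.le_add_right _ _, ?_, fun q hq => ?_⟩
    · have := cr_bound (N := N) hp
      change N + cr l N p.1 < N + r
      omega
    · obtain ⟨i, b | q'⟩ := p
      · exact absurd hq (by simp)
      · have h2 : (rr l i q'.1, q'.2) = q := Sum.inr.inj hq
        rw [← h2]
        exact (rr_bound hp).trans_le hlr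
  have hl' : l.map (nrm l N) ∈ CL r S N := by
    refine ⟨by rw [List.length_map]; exact hlr, fun p' hp' => ?_⟩
    obtain ⟨p, hp, rfl⟩ := List.mem_map.1 hp'
    by_cases h1 : p.1 < N
    · rw [nrm_lt h1]
      rcases hl.2 p hp with ⟨-, h2⟩ | ⟨h2, -⟩
      · exact Or.inl ⟨h1, h2⟩
      · omega
    · exact Or.inr (hcon p hp (not_lt.1 h1))
  have h1 := h _ hl' w hw
  have h2 : TD M D (l.map (nrm l N)) w = TD M D l w :=
    congrFun (hpat (nrm l N) {p | p ∈ l} hP l fun x hx => hx) w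
  rw [h2] at h1
  refine (hDIS kc ku k D {it | it.1 < N} st st l (nrm l N) (chk (S N) N ++ fut r (N + 1))
    (fut r N) hP ?_ ?_ ?_ (fun _ _ => rfl) ?_ ?_ ?_
    (fun v => M (sel (D.z ++ v) w) = TD M D l w)).2 h1
  · refine prg_aft (prg_cat r N (S N)) fun a ha b hb => Or.inl ?_
    have hb' : b.1 < N := hb
    rcases List.mem_append.1 ha with h3 | h3
    · rw [chk_fst a h3]
      exact hb'
    · have := fst_fut h3
      omega
  · refine prg_aft (prg_fut r N) fun a ha b hb => Or.inl ?_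
    have hb' : b.1 < N := hb
    have := fst_fut ha
    omega
  · intro p _ hp0
    exact ⟨nrm_lt hp0, rfl⟩
  · intro p hp hp0
    have h3 : N ≤ p.1 := not_lt.1 hp0
    constructor
    · rcases hl.2 p hp with ⟨h4, h5⟩ | ⟨h4, h5, h6⟩
      · refine List.mem_append_left _ ?_
        have h7 : p.1 = N := by omega
        have h8 := chk_mem (p := p) (s := S N) fun q hq => by
          have := h5 q hq
          rwa [h7] at this
        rwa [h7] at h8
      · exact List.mem_append_right _ (mem_fut h4 h5 h6)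
    · obtain ⟨h4, h5, h6⟩ := hcon p hp h3
      exact mem_fut h4 h5 h6
  · intro p _ hp0
    have h3 : p.1 < N := hp0
    rw [nrm_lt h3]
  · intro p hp hp0
    have h3 : N ≤ p.1 := not_lt.1 hp0
    exact not_lt.2 (hcon p hp h3).1

/-! ## Injectivity -/

/-- the points of the items `P` are different and avoid `Z`, the ultrafilters of the started chunks are
nonprincipal and injective -/
structure Inv (D : Dat kc ku k) (Z : Set ℕ) (P : Set (ℕ × ℕ × ℕ)) (st : Sta kc ku k) : Prop where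
  inj : InjOn st.pt {p | itp p ∈ P}
  avo : ∀ p, itp p ∈ P → st.pt p ∉ Z
  ok : ∀ c, (c, 0, 0) ∈ P → (Ij (D.V (st.j c)) ∧ NP (D.V (st.j c))) ∧
    (Ij (D.U (st.j c)) ∧ NP (D.U (st.j c)))

lemma finite_fiber (it : ℕ × ℕ × ℕ) : {p : Idx (kc + ku) k | itp p = it}.Finite := by
  refine (finite_box (kc := kc) (ku := ku) (k := k) (it.1 + 1) (it.2.2 + 1)).subset ?_
  intro p hp
  have hp' : itp p = it := hp
  rw [← hp']
  refine ⟨Nat.lt_succ_self _, fun q hq => ?_⟩
  unfold itp
  rw [hq]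
  exact Nat.lt_succ_self _

lemma finite_points {P : Set (ℕ × ℕ × ℕ)} (hP : P.Finite) :
    {p : Idx (kc + ku) k | itp p ∈ P}.Finite := by
  have h1 : {p : Idx (kc + ku) k | itp p ∈ P} = ⋃ it ∈ P, {p | itp p = it} := by
    ext p
    simp
  rw [h1]
  exact hP.biUnion fun it _ => finite_fiber it

lemma np_avoid {I : Type} [Finite I] {U : Ultrafilter (I → ℕ)} (hU : NP U) {Z : Set ℕ}
    (hZ : Z.Finite) : ∀ᶠ y in (U : Filter (I → ℕ)), ∀ i, y i ∉ Z := by
  rw [Filter.eventually_all]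
  intro i
  have h1 : ∀ᶠ y in (U : Filter (I → ℕ)), ∀ a ∈ Z, y i ≠ a := by
    rw [Filter.eventually_all_finite hZ]
    exact fun a _ => hU i a
  filter_upwards [h1] with y hy h2
  exact hy _ h2 rfl

/-- one block of new points -/
lemma inv_block {Z : Set ℕ} {P : Set (ℕ × ℕ × ℕ)} {it : ℕ × ℕ × ℕ} {st s : Sta kc ku k}
    (h : Inv D Z P st) {I : Type} (y : I → ℕ) (f : I → Idx (kc + ku) k)
    (hold : ∀ p, itp p ≠ it → s.pt p = st.pt p) (hf : ∀ p, itp p = it → ∃ x, p = f x)
    (hnew : ∀ x, s.pt (f x) = y x) (hy : Function.Injective y)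
    (hy' : ∀ i, y i ∉ Z ∪ st.pt '' {p | itp p ∈ P})
    (hok : ∀ c, (c, 0, 0) ∈ insert it P → (Ij (D.V (s.j c)) ∧ NP (D.V (s.j c))) ∧
      (Ij (D.U (s.j c)) ∧ NP (D.U (s.j c)))) : Inv D Z (insert it P) s := by
  refine ⟨fun p hp q hq hpq => ?_, fun p hp => ?_, hok⟩
  · have hp' : itp p = it ∨ itp p ∈ P := hp
    have hq' : itp q = it ∨ itp q ∈ P := hq
    by_cases h1 : itp p = it
    · obtain ⟨x, rfl⟩ := hf p h1
      rw [hnew x] at hpq
      by_cases h2 : itp q = it
      · obtain ⟨x', rfl⟩ := hf q h2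
        rw [hnew x'] at hpq
        rw [hy hpq]
      · rw [hold q h2] at hpq
        exact absurd (Or.inr ⟨q, hq'.resolve_left h2, hpq.symm⟩) (hy' x)
    · rw [hold p h1] at hpq
      by_cases h2 : itp q = it
      · obtain ⟨x', rfl⟩ := hf q h2
        rw [hnew x'] at hpq
        exact absurd (Or.inr ⟨p, hp'.resolve_left h1, hpq⟩) (hy' x')
      · rw [hold q h2] at hpq
        exact h.inj (hp'.resolve_left h1) (hq'.resolve_left h2) hpq
  · by_cases h1 : itp p = it
    · obtain ⟨x, rfl⟩ := hf p h1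
      rw [hnew x]
      exact fun h2 => hy' x (Or.inl h2)
    · rw [hold p h1]
      exact h.avo p ((show itp p = it ∨ itp p ∈ P from hp).resolve_left h1)

lemma c_avoid (hOK : D.OK) {Z : Set ℕ} (hZ : Z.Finite) :
    ∀ᶠ j in (D.UU : Filter ℕ), ∀ b, D.c j b ∉ Z := by
  rw [Filter.eventually_all]
  intro b
  have h1 : ∀ᶠ j in (D.UU : Filter ℕ), ∀ a ∈ Z, D.c j b ≠ a := by
    rw [Filter.eventually_all_finite hZ]
    exact fun a _ => hOK.cN b a
  filter_upwards [h1] with j hj h2
  exact hj _ h2 rfl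

/-- the state after the last hub points of the chunk `i` -/
def s2 (i : ℕ) (y : Fin ku → ℕ) (st : Sta kc ku k) : Sta kc ku k :=
  ⟨st.j, fun p =>
      if p.1 = i then
        Sum.elim (fun b => Fin.addCases (fun _ => st.pt p) (fun b' => y b') b)
          (fun _ => st.pt p) p.2
      else st.pt p⟩

lemma ev_hub {i m : ℕ} {st : Sta kc ku k} {φ : Sta kc ku k → Prop} :
    (∀ᶠ s in (step D (i, 2, m) st : Filter (Sta kc ku k)), φ s) ↔
      ∀ᶠ y in (D.U (st.j i) : Filter (Fin ku → ℕ)), φ (s2 i y st) := by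
  unfold step
  rw [if_neg (by simp), if_neg (by simp)]
  exact Iff.rfl

lemma itp_c (i : ℕ) (b : Fin kc) :
    itp ((i, .inl (Fin.castAdd ku b)) : Idx (kc + ku) k) = (i, 0, 0) := by
  simp [itp]

lemma itp_u (i : ℕ) (b : Fin ku) :
    itp ((i, .inl (Fin.natAdd kc b)) : Idx (kc + ku) k) = (i, 2, 0) := by
  simp [itp]

lemma itp_r (i m : ℕ) (y : Fin k) :
    itp ((i, .inr (m, y)) : Idx (kc + ku) k) = (i, 1, m) := by
  simp [itp]

/-- the three kinds of points -/
lemma idx_cases (p : Idx (kc + ku) k) : (∃ b : Fin kc, p = (p.1, .inl (Fin.castAdd ku b))) ∨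
    (∃ b : Fin ku, p = (p.1, .inl (Fin.natAdd kc b))) ∨
    ∃ (m : ℕ) (y : Fin k), p = (p.1, .inr (m, y)) := by
  obtain ⟨i, b | q⟩ := p
  · refine Fin.addCases (fun b' => ?_) (fun b' => ?_) b
    · exact Or.inl ⟨b', rfl⟩
    · exact Or.inr (Or.inl ⟨b', rfl⟩)
  · exact Or.inr (Or.inr ⟨q.1, q.2, rfl⟩)

lemma inv_step (hOK : D.OK) {Z : Set ℕ} (hZ : Z.Finite) {P : Set (ℕ × ℕ × ℕ)} (hP : P.Finite)
    {it : ℕ × ℕ × ℕ} (hval : it.2.1 ≤ 2 ∧ (it.2.1 ≠ 1 → it.2.2 = 0))
    (hsta : it = (it.1, 0, 0) ∨ (it.1, 0, 0) ∈ P) {st : Sta kc ku k} (h : Inv D Z P st) :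
    ∀ᶠ s in (step D it st : Filter (Sta kc ku k)), Inv D Z (insert it P) s := by
  have hZ' : (Z ∪ st.pt '' {p | itp p ∈ P}).Finite := hZ.union ((finite_points hP).image _)
  obtain ⟨i, t, m⟩ := it
  have ht : t = 0 ∨ t = 1 ∨ t = 2 := by
    have : t ≤ 2 := hval.1
    omega
  rcases ht with rfl | rfl | rfl
  · -- start
    have hm : m = 0 := hval.2 (by norm_num)
    subst hm
    rw [ev_start]
    filter_upwards [hOK.cI, c_avoid hOK hZ', hOK.vN, hOK.uN] with j h1 h2 h3 h4
    refine inv_block h (D.c j) (fun b => (i, .inl (Fin.castAdd ku b))) (fun p hp => ?_)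
      (fun p hp => ?_) (fun b => ?_) h1 h2 fun c hc => ?_
    · change (if p.1 = i then _ else _) = _
      split_ifs with hi
      · rcases idx_cases p with ⟨b, hb⟩ | ⟨b, hb⟩ | ⟨m, y, hb⟩
        · refine absurd ?_ hp
          rw [hb, itp_c, hi]
        · rw [hb]
          simp
        · rw [hb]
          simp
      · rfl
    · rcases idx_cases p with ⟨b, hb⟩ | ⟨b, hb⟩ | ⟨m, y, hb⟩
      · rw [hb, itp_c] at hp
        refine ⟨b, ?_⟩
        rw [hb, (Prod.mk.inj hp).1]
      · rw [hb, itp_u] at hp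
        simp at hp
      · rw [hb, itp_r] at hp
        simp at hp
    · change (if i = i then _ else _) = _
      rw [if_pos rfl]
      simp
    · change (Ij (D.V (Function.update st.j i j c)) ∧ NP (D.V (Function.update st.j i j c))) ∧
        (Ij (D.U (Function.update st.j i j c)) ∧ NP (D.U (Function.update st.j i j c)))
      by_cases hc' : c = i
      · subst hc'
        rw [Function.update_self]
        exact ⟨h3, h4⟩
      · rw [Function.update_of_ne hc']
        refine h.ok c (((mem_insert_iff).1 hc).resolve_left fun h5 => hc' (Prod.mk.inj h5).1)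
  · have hs : (i, 0, 0) ∈ P := by
      rcases hsta with h1 | h1
      · simp at h1
      · exact h1
    rw [ev_row]
    filter_upwards [(h.ok i hs).1.1, np_avoid (h.ok i hs).1.2 hZ'] with y h1 h2
    refine inv_block h y (fun b => (i, .inr (m, b))) (fun p hp => ?_)
      (fun p hp => ?_) (fun b => ?_) h1 h2 fun c hc => ?_
    · change (if p.1 = i then _ else _) = _
      split_ifs with hi
      · rcases idx_cases p with ⟨b, hb⟩ | ⟨b, hb⟩ | ⟨m', y', hb⟩
        · rw [hb]
          simp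
        · rw [hb]
          simp
        · rw [hb]
          simp only [Sum.elim_inr]
          rw [if_neg]
          intro hm
          refine hp ?_
          rw [hb, itp_r, hi, hm]
      · rfl
    · rcases idx_cases p with ⟨b, hb⟩ | ⟨b, hb⟩ | ⟨m', y', hb⟩
      · rw [hb, itp_c] at hp
        simp at hp
      · rw [hb, itp_u] at hp
        simp at hp
      · rw [hb, itp_r] at hp
        refine ⟨y', ?_⟩
        have h3 := Prod.mk.inj hp
        rw [hb, h3.1, (Prod.mk.inj h3.2).2]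
    · exact s1_self i m y st b
    · change (Ij (D.V (st.j c)) ∧ NP (D.V (st.j c))) ∧ (Ij (D.U (st.j c)) ∧ NP (D.U (st.j c)))
      exact h.ok c (((mem_insert_iff).1 hc).resolve_left fun h5 => by simp at h5)
  · have hm : m = 0 := hval.2 (by norm_num)
    subst hm
    have hs : (i, 0, 0) ∈ P := by
      rcases hsta with h1 | h1
      · simp at h1
      · exact h1
    rw [ev_hub]
    filter_upwards [(h.ok i hs).2.1, np_avoid (h.ok i hs).2.2 hZ'] with y h1 h2
    refine inv_block h y (fun b => (i, .inl (Fin.natAdd kc b))) (fun p hp => ?_)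
      (fun p hp => ?_) (fun b => ?_) h1 h2 fun c hc => ?_
    · change (if p.1 = i then _ else _) = _
      split_ifs with hi
      · rcases idx_cases p with ⟨b, hb⟩ | ⟨b, hb⟩ | ⟨m', y', hb⟩
        · rw [hb]
          simp
        · refine absurd ?_ hp
          rw [hb, itp_u, hi]
        · rw [hb]
          simp
      · rfl
    · rcases idx_cases p with ⟨b, hb⟩ | ⟨b, hb⟩ | ⟨m', y', hb⟩
      · rw [hb, itp_c] at hp
        simp at hp
      · rw [hb, itp_u] at hp
        refine ⟨b, ?_⟩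
        rw [hb, (Prod.mk.inj hp).1]
      · rw [hb, itp_r] at hp
        simp at hp
    · change (if i = i then _ else _) = _
      rw [if_pos rfl]
      simp
    · change (Ij (D.V (st.j c)) ∧ NP (D.V (st.j c))) ∧ (Ij (D.U (st.j c)) ∧ NP (D.U (st.j c)))
      exact h.ok c (((mem_insert_iff).1 hc).resolve_left fun h5 => by simp at h5)

lemma inv_run (hOK : D.OK) {Z : Set ℕ} (hZ : Z.Finite) : ∀ (σ : List (ℕ × ℕ × ℕ))
    {P : Set (ℕ × ℕ × ℕ)}, P.Finite → (∀ a ∈ σ, a.2.1 ≤ 2 ∧ (a.2.1 ≠ 1 → a.2.2 = 0)) →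
    (∀ (σ1 σ2 : List (ℕ × ℕ × ℕ)) (a : ℕ × ℕ × ℕ), σ = σ1 ++ a :: σ2 →
      a = (a.1, 0, 0) ∨ (a.1, 0, 0) ∈ σ1 ∨ (a.1, 0, 0) ∈ P) →
    ∀ {st : Sta kc ku k}, Inv D Z P st →
      ∀ᶠ s in (run D σ st : Filter (Sta kc ku k)), Inv D Z (P ∪ {a | a ∈ σ}) s
  | [], P, _, _, _, st, h => by
    rw [ev_nil]
    have h1 : P ∪ {a | a ∈ ([] : List (ℕ × ℕ × ℕ))} = P := by simp
    rw [h1]
    exact h
  | it :: σ, P, hP, hval, hsta, st, h => by
    rw [ev_cons]
    have h0 : it = (it.1, 0, 0) ∨ (it.1, 0, 0) ∈ P := by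
      rcases hsta [] σ it rfl with h1 | h1 | h1
      · exact Or.inl h1
      · simp at h1
      · exact Or.inr h1
    filter_upwards [inv_step hOK hZ hP (hval it (List.mem_cons_self ..)) h0 h] with s hs
    have h1 := inv_run hOK hZ σ (hP.insert it) (fun a ha => hval a (List.mem_cons_of_mem _ ha))
      (fun σ1 σ2 a ha => by
        rcases hsta (it :: σ1) σ2 a (by rw [ha]; rfl) with h2 | h2 | h2
        · exact Or.inl h2
        · rcases List.mem_cons.1 h2 with h3 | h3
          · exact Or.inr (Or.inr (h3 ▸ mem_insert _ _))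
          · exact Or.inr (Or.inl h3)
        · exact Or.inr (Or.inr (mem_insert_of_mem _ h2))) hs
    have h2 : insert it P ∪ {a | a ∈ σ} = P ∪ {a | a ∈ it :: σ} := by
      ext a
      simp only [mem_union, mem_insert_iff, mem_setOf_eq, List.mem_cons]
      tauto
    rw [h2] at h1
    exact h1

lemma chk_val' {s i : ℕ} : ∀ a ∈ chk s i, a.2.1 ≤ 2 ∧ (a.2.1 ≠ 1 → a.2.2 = 0) := chk_val

lemma inv_chk (hOK : D.OK) {Z : Set ℕ} (hZ : Z.Finite) {s N : ℕ} {P : Set (ℕ × ℕ × ℕ)}
    (hP : P.Finite) {st : Sta kc ku k} (h : Inv D Z P st) :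
    ∀ᶠ s' in (run D (chk s N) st : Filter (Sta kc ku k)), Inv D Z (P ∪ {a | a ∈ chk s N}) s' := by
  refine inv_run hOK hZ (chk s N) hP chk_val (fun σ1 σ2 a ha => ?_) h
  have h1 : a.1 = N := chk_fst a (by rw [ha]; simp)
  cases σ1 with
  | nil =>
    left
    have h2 : a = (N, 0, 0) := by
      unfold chk at ha
      simp only [List.cons_append, List.nil_append] at ha
      exact (List.cons.inj ha).1.symm
    rw [h2]
  | cons b σ1 =>
    right
    left
    have h2 : b = (N, 0, 0) := by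
      unfold chk at ha
      simp only [List.cons_append] at ha
      exact (List.cons.inj ha).1.symm
    rw [h1, ← h2]
    exact List.mem_cons_self ..

/-! ## Words -/

lemma exists_sel' {α : Type} (l : List α) : ∀ l' : List α, l' ⊆ l →
    ∃ w, w.length = l'.length ∧ (∀ i ∈ w, i < l.length) ∧ sel l w = l'
  | [], _ => ⟨[], rfl, by simp, rfl⟩
  | x :: l', h => by
    obtain ⟨w, hw1, hw2, hw⟩ := exists_sel' l l' fun y hy => h (List.mem_cons_of_mem _ hy)
    obtain ⟨i, hi⟩ := List.getElem?_of_mem (h (List.mem_cons_self ..))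
    refine ⟨i :: w, by simp [hw1], fun a ha => ?_, ?_⟩
    · rcases List.mem_cons.1 ha with rfl | ha
      · exact (List.getElem?_eq_some_iff.1 hi).1
      · exact hw2 a ha
    · unfold sel at hw ⊢
      rw [List.filterMap_cons, hi, hw]

/-- the normal form of a word -/
lemma norm_word (r : ℕ) (z : List ℕ) (l : List (Idx (kc + ku) k)) (w : List ℕ) :
    (∃ n, r < n ∧ ∀ f : Idx (kc + ku) k → ℕ, (sel (z ++ l.map f) w).length = n) ∨
    ∃ (l' : List (Idx (kc + ku) k)) (w' : List ℕ), l'.length ≤ r ∧ (∀ p ∈ l', p ∈ l) ∧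
      w' ∈ CW r z ∧
      ∀ f : Idx (kc + ku) k → ℕ, sel (z ++ l.map f) w = sel (z ++ l'.map f) w' := by
  have h1 : ∀ (f : Idx (kc + ku) k → ℕ) (l0 : List (Idx (kc + ku) k)) (w0 : List ℕ),
      sel (z ++ l0.map f) w0 = (sel (z.map Sum.inl ++ l0.map Sum.inr) w0).map (Sum.elim id f) := by
    intro f l0 w0
    rw [← sel_map]
    congr 1
    simp [List.map_append, List.map_map, Function.comp_def]
  set v : List (ℕ ⊕ Idx (kc + ku) k) := sel (z.map Sum.inl ++ l.map Sum.inr) w with hv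
  by_cases h : r < v.length
  · exact Or.inl ⟨v.length, h, fun f => by rw [h1, List.length_map]⟩
  · right
    let l' : List (Idx (kc + ku) k) := v.filterMap Sum.getRight?
    have hsub : v ⊆ z.map Sum.inl ++ l'.map Sum.inr := by
      intro x hx
      have h2 : x ∈ z.map Sum.inl ++ l.map Sum.inr := sel_mem hx
      rcases x with a | p
      · rcases List.mem_append.1 h2 with h3 | h3
        · exact List.mem_append_left _ h3
        · obtain ⟨q, -, hq⟩ := List.mem_map.1 h3
          exact absurd hq (by simp)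
      · exact List.mem_append_right _ (List.mem_map.2
          ⟨p, List.mem_filterMap.2 ⟨_, hx, rfl⟩, rfl⟩)
    have hlen : l'.length ≤ r := (List.length_filterMap_le _ _).trans (not_lt.1 h)
    obtain ⟨w', hw1, hw2, hw3⟩ := exists_sel' _ v hsub
    refine ⟨l', w', hlen, fun p hp => ?_, ⟨by omega, fun i hi => ?_⟩, fun f => ?_⟩
    · obtain ⟨x, hx, hx'⟩ := List.mem_filterMap.1 hp
      rcases x with a | q
      · exact absurd hx' (by simp)
      · have h3 : q = p := by simpa using hx'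
        subst h3
        have h2 : Sum.inr q ∈ z.map Sum.inl ++ l.map Sum.inr := sel_mem hx
        rcases List.mem_append.1 h2 with h3 | h3
        · obtain ⟨a, -, ha⟩ := List.mem_map.1 h3
          exact absurd ha (by simp)
        · obtain ⟨q', hq', h4⟩ := List.mem_map.1 h3
          exact Sum.inr.inj h4 ▸ hq'
    · have h3 := hw2 i hi
      rw [List.length_append, List.length_map, List.length_map] at h3
      omega
    · rw [h1, h1, hw3]

lemma mem_fut_all (l : List (Idx (kc + ku) k)) : ∃ r, ∀ p ∈ l, itp p ∈ fut r 0 := by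
  refine ⟨bnd l, fun p hp => ?_⟩
  have h1 : p.1 + 1 + Sum.elim (fun _ => 0) (fun q => q.1 + 1) p.2 ≤ bnd l :=
    List.single_le_sum (fun _ _ => Nat.zero_le _) _ (List.mem_map.2 ⟨p, hp, rfl⟩)
  refine mem_fut (Nat.zero_le _) (by omega) fun q hq => ?_
  rw [hq, Sum.elim_inr] at h1
  omega

lemma finite_VN (S : ℕ → ℕ) (N : ℕ) :
    {p : Idx (kc + ku) k | p.1 < N ∧ p ∈ V (kc + ku) k S}.Finite := by
  refine (finite_box (kc := kc) (ku := ku) (k := k) N (∑ i ∈ Finset.range N, S i)).subset ?_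
  rintro p ⟨h3, h4⟩
  refine ⟨h3, fun q hq => ?_⟩
  have h5 : q.1 < S p.1 := h4 q hq
  have h6 : S p.1 ≤ ∑ i ∈ Finset.range N, S i :=
    Finset.single_le_sum (f := S) (fun _ _ => Nat.zero_le _) (Finset.mem_range.2 h3)
  omega

/-- **Row REAL.** -/
theorem pf_REAL (hDIS : T_DIS) (hTDV : T_TDV) (hTDP : T_TDP) : T_REAL := by
  intro C kc ku k r M D hM hAr hOK S
  have hZ : {a : ℕ | a ∈ D.z}.Finite := List.finite_toSet _
  generalize hZe : {a : ℕ | a ∈ D.z} = Z at hZ
  let P : ℕ → Set (ℕ × ℕ × ℕ) := fun N => {a | ∃ i < N, a ∈ chk (S i) i}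
  have hPf : ∀ N, (P N).Finite := by
    intro N
    have h1 : P N = ⋃ i ∈ {i | i < N}, {a | a ∈ chk (S i) i} := by
      ext a
      simp [P]
    rw [h1]
    exact (Set.finite_lt_nat N).biUnion fun i _ => List.finite_toSet _
  have hPs : ∀ N, P N ∪ {a | a ∈ chk (S N) N} = P (N + 1) := by
    intro N
    ext a
    constructor
    · rintro (⟨i, hi, h1⟩ | h1)
      · exact ⟨i, by omega, h1⟩
      · exact ⟨N, by omega, h1⟩
    · rintro ⟨i, hi, h1⟩
      rcases Nat.lt_succ_iff_lt_or_eq.1 hi with h2 | h2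
      · exact Or.inl ⟨i, h2, h1⟩
      · subst h2
        exact Or.inr h1
  have hst : ∀ (N : ℕ) (st : Sta kc ku k), (Inv D Z (P N) st ∧ Good M D r S N st) →
      ∃ st' : Sta kc ku k, (Inv D Z (P (N + 1)) st' ∧ Good M D r S (N + 1) st') ∧
        ∀ p ∈ {p : Idx (kc + ku) k | p.1 < N ∧ p ∈ V (kc + ku) k S}, st'.pt p = st.pt p := by
    rintro N st ⟨ha, hb⟩
    have e1 := inv_chk hOK hZ (s := S N) (N := N) (hPf N) ha
    have e2 := good_succ hM hDIS hTDP r S N hb
    have e3 : ∀ᶠ s in (run D (chk (S N) N) st : Filter (Sta kc ku k)),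
        ∀ p ∈ {p : Idx (kc + ku) k | p.1 < N ∧ p ∈ V (kc + ku) k S}, s.pt p = st.pt p := by
      rw [Filter.eventually_all_finite (finite_VN S N)]
      exact fun p hp => run_keep (fun it hit => by
        rw [chk_fst it hit]
        exact hp.1.ne) st
    obtain ⟨s, h1, h2, h3⟩ := (e1.and (e2.and e3)).exists
    rw [hPs] at h1
    exact ⟨s, ⟨h1, h2⟩, h3⟩
  choose F hF1 hF2 using hst
  have h0 : Inv D Z (P 0) (st0 : Sta kc ku k) ∧ Good M D r S 0 (st0 : Sta kc ku k) := by
    have h1 : ∀ a, a ∉ P 0 := fun a ⟨i, hi, _⟩ => absurd hi (by omega)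
    refine ⟨⟨fun p hp => absurd hp (h1 _), fun p hp => absurd hp (h1 _),
      fun c hc => absurd hc (h1 _)⟩, good_zero hM hTDV r S _⟩
  let sq : (N : ℕ) → {st : Sta kc ku k // Inv D Z (P N) st ∧ Good M D r S N st} := fun N =>
    Nat.rec ⟨st0, h0⟩ (fun N x => ⟨F N x.1 x.2, hF1 N x.1 x.2⟩) N
  have hsq : ∀ N, (sq (N + 1)).1 = F N (sq N).1 (sq N).2 := fun _ => rfl
  let pt : Idx (kc + ku) k → ℕ := fun p => (sq (p.1 + 1)).1.pt p
  have hpt : ∀ p ∈ V (kc + ku) k S, ∀ N, p.1 < N → (sq N).1.pt p = pt p := by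
    intro p hp N hN
    refine Nat.le_induction (m := p.1 + 1) rfl (fun n hn ih => ?_) N hN
    rw [hsq]
    exact (hF2 n (sq n).1 (sq n).2 p ⟨hn, hp⟩).trans ih
  have hit : ∀ p ∈ V (kc + ku) k S, ∀ N, p.1 < N → itp p ∈ P N := fun p hp N hN =>
    ⟨p.1, hN, chk_mem fun q hq => hp q hq⟩
  refine ⟨pt, fun p hp q hq hpq => ?_, fun p hp => ?_, fun l hl w => ?_⟩
  · have h1 := hpt p hp (p.1 + q.1 + 1) (by omega)
    have h2 := hpt q hq (p.1 + q.1 + 1) (by omega)
    refine (sq (p.1 + q.1 + 1)).2.1.inj (hit p hp _ (by omega)) (hit q hq _ (by omega)) ?_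
    rw [h1, h2]
    exact hpq
  · have h1 := (sq (p.1 + 1)).2.1.avo p (hit p hp _ (by omega))
    intro h2
    exact h1 (hZe.subset h2)
  · -- the labels
    obtain ⟨R, hR⟩ := mem_fut_all l
    have e1 : ∀ᶠ s in (run D (fut R 0) st0 : Filter (Sta kc ku k)),
        M (sel (D.z ++ l.map s.pt) w) = TD M D l w :=
      hTDV C kc ku k M D hM l (fut R 0) (prg_fut R 0) hR st0 w
    rcases norm_word r D.z l w with ⟨n, hn, h1⟩ | ⟨l', w', h1, h2, h3, h4⟩
    · obtain ⟨s, hs⟩ := e1.exists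
      rw [← hs]
      exact hAr _ _ (by rw [h1]; exact hn) (by rw [h1]; exact hn)
    · have e2 : ∀ᶠ s in (run D (fut R 0) st0 : Filter (Sta kc ku k)),
          M (sel (D.z ++ l'.map s.pt) w') = TD M D l' w' :=
        hTDV C kc ku k M D hM l' (fut R 0) (prg_fut R 0) (fun p hp => hR p (h2 p hp)) st0 w'
      obtain ⟨s, hs, hs'⟩ := (e1.and e2).exists
      have h5 : TD M D l w = TD M D l' w' := by rw [← hs, ← hs', h4]
      rw [h5, h4]
      -- a stage after all chunks of the list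
      obtain ⟨N, hN⟩ : ∃ N, ∀ p ∈ l', p.1 < N := by
        refine ⟨(l'.map fun p => p.1 + 1).sum, fun p hp => ?_⟩
        have h6 : p.1 + 1 ≤ (l'.map fun p => p.1 + 1).sum :=
          List.single_le_sum (fun _ _ => Nat.zero_le _) _ (List.mem_map.2 ⟨p, hp, rfl⟩)
        omega
      have h6 : l' ∈ (CL r S N : Set (List (Idx (kc + ku) k))) :=
        ⟨h1, fun p hp => Or.inl ⟨hN p hp, hl p (h2 p hp)⟩⟩
      have h7 := (sq N).2.2 l' h6 w' h3
      have h8 : ∀ᶠ s in (run D (fut r N) (sq N).1 : Filter (Sta kc ku k)),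
          l'.map s.pt = l'.map (sq N).1.pt := by
        refine run_keep_list (fun p hp it hit => ?_) _
        have h9 := fst_fut hit
        have h10 := hN p hp
        omega
      obtain ⟨s, h9, h10⟩ := (h7.and h8).exists
      rw [← h9, h10]
      congr 3
      exact List.map_congr_left fun p hp => hpt p (hl p (h2 p hp)) N (hN p hp)

end Pool.Agent.H41.FKI
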