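import Pool.Agent.H16.FK.TargetsB

/-!
# Rows FSD and BLD: symmetric rows of the random array
-/

set_option autoImplicit false

namespace Pool.Agent.H41.FKI

open Set Pool.Agent.H75.HCI Pool.Agent.H16.FK

variable {C : Type} {kc ku k : ℕ} {D : Dat kc ku k}

/-- the state after the start of the chunk `i` -/
def s0 (D : Dat kc ku k) (i jj : ℕ) (st : Sta kc ku k) : Sta kc ku k :=
  ⟨Function.update st.j i jj, fun p =>
      if p.1 = i then
        Sum.elim (fun b => Fin.addCases (fun b' => D.c jj b') (fun _ => st.pt p) b)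
          (fun _ => st.pt p) p.2
      else st.pt p⟩

/-- the state after the row `m` of the chunk `i` -/
def s1 (i m : ℕ) (y : Fin k → ℕ) (st : Sta kc ku k) : Sta kc ku k :=
  ⟨st.j, fun p =>
      if p.1 = i then
        Sum.elim (fun _ => st.pt p) (fun q => if q.1 = m then y q.2 else st.pt p) p.2
      else st.pt p⟩

lemma s1_self (i m : ℕ) (x : Fin k → ℕ) (st : Sta kc ku k) (y : Fin k) :
    (s1 i m x st).pt (i, .inr (m, y)) = x y := by
  simp [s1]

lemma ev_start {i : ℕ} {st : Sta kc ku k} {φ : Sta kc ku k → Prop} :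
    (∀ᶠ s in (step D (i, 0, 0) st : Filter (Sta kc ku k)), φ s) ↔
      ∀ᶠ jj in (D.UU : Filter ℕ), φ (s0 D i jj st) := by
  unfold step
  rw [if_pos rfl]
  exact Iff.rfl

lemma ev_row {i m : ℕ} {st : Sta kc ku k} {φ : Sta kc ku k → Prop} :
    (∀ᶠ s in (step D (i, 1, m) st : Filter (Sta kc ku k)), φ s) ↔
      ∀ᶠ y in (D.V (st.j i) : Filter (Fin k → ℕ)), φ (s1 i m y st) := by
  unfold step
  rw [if_neg (by simp), if_pos rfl]
  exact Iff.rfl

lemma ev_cons {it : ℕ × ℕ × ℕ} {σ : List (ℕ × ℕ × ℕ)} {st : Sta kc ku k}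
    {φ : Sta kc ku k → Prop} :
    (∀ᶠ s in (run D (it :: σ) st : Filter (Sta kc ku k)), φ s) ↔
      ∀ᶠ s in (step D it st : Filter (Sta kc ku k)),
        ∀ᶠ s' in (run D σ s : Filter (Sta kc ku k)), φ s' := Iff.rfl

lemma ev_nil {st : Sta kc ku k} {φ : Sta kc ku k → Prop} :
    (∀ᶠ s in (run D [] st : Filter (Sta kc ku k)), φ s) ↔ φ st := by
  change (∀ᶠ s in ((pure st : Ultrafilter (Sta kc ku k)) : Filter (Sta kc ku k)), φ s) ↔ _
  rw [Ultrafilter.coe_pure]
  exact Filter.eventually_pure

lemma ev_append (σ τ : List (ℕ × ℕ × ℕ)) : ∀ {st : Sta kc ku k} {φ : Sta kc ku k → Prop},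
    (∀ᶠ s in (run D (σ ++ τ) st : Filter (Sta kc ku k)), φ s) ↔
      ∀ᶠ s in (run D σ st : Filter (Sta kc ku k)),
        ∀ᶠ s' in (run D τ s : Filter (Sta kc ku k)), φ s' := by
  induction σ with
  | nil =>
    intro st φ
    rw [List.nil_append, ev_nil]
  | cons it σ ih =>
    intro st φ
    rw [List.cons_append, ev_cons, ev_cons]
    exact Filter.eventually_congr (Filter.Eventually.of_forall fun s => ih)

/-- points of other chunks are kept -/
lemma step_keep {it : ℕ × ℕ × ℕ} {p : Idx (kc + ku) k} (h : p.1 ≠ it.1) (st : Sta kc ku k) :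
    ∀ᶠ s in (step D it st : Filter (Sta kc ku k)), s.pt p = st.pt p := by
  unfold step
  split_ifs
  · change ∀ᶠ j in (D.UU : Filter ℕ), _
    refine Filter.Eventually.of_forall fun j => ?_
    exact if_neg h
  · change ∀ᶠ y in (D.V (st.j it.1) : Filter (Fin k → ℕ)), _
    refine Filter.Eventually.of_forall fun j => ?_
    exact if_neg h
  · change ∀ᶠ y in (D.U (st.j it.1) : Filter (Fin ku → ℕ)), _
    refine Filter.Eventually.of_forall fun j => ?_
    exact if_neg h

lemma run_keep {p : Idx (kc + ku) k} : ∀ {σ : List (ℕ × ℕ × ℕ)}, (∀ it ∈ σ, p.1 ≠ it.1) →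
    ∀ st : Sta kc ku k, ∀ᶠ s in (run D σ st : Filter (Sta kc ku k)), s.pt p = st.pt p
  | [], _, st => by
    rw [ev_nil]
  | it :: σ, h, st => by
    rw [ev_cons]
    filter_upwards [step_keep (D := D) (h it (List.mem_cons_self ..)) st] with s hs
    filter_upwards [run_keep (fun a ha => h a (List.mem_cons_of_mem _ ha)) s] with s' hs'
    rw [hs', hs]

lemma run_keep_list {l : List (Idx (kc + ku) k)} {σ : List (ℕ × ℕ × ℕ)}
    (h : ∀ p ∈ l, ∀ it ∈ σ, p.1 ≠ it.1) (st : Sta kc ku k) :
    ∀ᶠ s in (run D σ st : Filter (Sta kc ku k)), l.map s.pt = l.map st.pt := by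
  have h1 : ∀ᶠ s in (run D σ st : Filter (Sta kc ku k)), ∀ p ∈ {p | p ∈ l},
      s.pt p = st.pt p := by
    rw [Filter.eventually_all_finite (List.finite_toSet l)]
    exact fun p hp => run_keep (h p hp) st
  filter_upwards [h1] with s hs
  exact List.map_congr_left fun p hp => hs p hp

/-- the program of one row in each of the chunks `js` -/
def far (js : List ℕ) : List (ℕ × ℕ × ℕ) := js.flatMap fun j => [(j, 0, 0), (j, 1, 0)]

/-- the rows -/
def rw1 (js : List ℕ) (s : Sta kc ku k) : Fin js.length → Fin k → ℕ :=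
  fun i y => s.pt (js.get i, .inr (0, y))

/-- the distribution of the far rows -/
lemma far_dist (js : List ℕ) : ∀ (n : ℕ) (hn : js.length = n), js.Nodup →
    ∀ (st : Sta kc ku k) (φ : (Fin n → Fin k → ℕ) → Prop),
    (∀ᶠ s in (run D (far js) st : Filter (Sta kc ku k)),
      φ fun i y => s.pt (js.get (i.cast hn.symm), .inr (0, y))) ↔
      ∀ᶠ xs in (H71.HCI.pw (limU D.UU D.V) n : Filter (Fin n → Fin k → ℕ)), φ xs := by
  induction js using List.reverseRecOn with
  | nil =>
    intro n hn _ st φ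
    subst hn
    change (∀ᶠ s in (run D [] st : Filter (Sta kc ku k)), _) ↔ _
    rw [ev_nil]
    change _ ↔ ∀ᶠ xs in ((pure fun i => i.elim0 : Ultrafilter (Fin 0 → Fin k → ℕ)) :
      Filter (Fin 0 → Fin k → ℕ)), φ xs
    rw [Ultrafilter.coe_pure, Filter.eventually_pure]
    have h1 : (fun (i : Fin ([] : List ℕ).length) (y : Fin k) =>
        st.pt (([] : List ℕ).get (i.cast rfl), .inr (0, y))) = fun i => i.elim0 :=
      funext fun i => i.elim0
    exact iff_of_eq (congrArg φ h1)
  | append_singleton js j ih =>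
    intro n hn hnd st φ
    rw [List.length_append, List.length_singleton] at hn
    subst hn
    rw [List.nodup_append] at hnd
    have hj : j ∉ js := fun h => hnd.2.2 j h j (List.mem_singleton_self j) rfl
    have e1 : far (js ++ [j]) = far js ++ [(j, 0, 0), (j, 1, 0)] := by
      unfold far
      rw [List.flatMap_append]
      simp
    rw [e1, ev_append]
    change _ ↔ ∀ᶠ xs in ((H71.HCI.pw (limU D.UU D.V) js.length).bind fun xs =>
      (limU D.UU D.V).map fun x => Fin.snoc (α := fun _ => Fin k → ℕ) xs x :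
        Ultrafilter (Fin (js.length + 1) → Fin k → ℕ)), φ xs
    rw [H71.HCI.mem_bind]
    rw [← ih js.length rfl hnd.1 st]
    refine Filter.eventually_congr (Filter.Eventually.of_forall fun s => ?_)
    rw [ev_cons, ev_start]
    change _ ↔ ∀ᶠ x in (limU D.UU D.V : Filter (Fin k → ℕ)), φ _
    rw [H71.HCI.ev_limU]
    refine Filter.eventually_congr (Filter.Eventually.of_forall fun jj => ?_)
    rw [ev_cons, ev_row]
    have e2 : (s0 D j jj s).j j = jj := Function.update_self ..
    rw [e2]
    refine Filter.eventually_congr (Filter.Eventually.of_forall fun x => ?_)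
    rw [ev_nil]
    refine iff_of_eq (congrArg φ (funext fun i => funext fun y => ?_))
    rcases Fin.eq_castSucc_or_eq_last i with ⟨i', rfl⟩ | rfl
    · rw [Fin.snoc_castSucc]
      have e3 : (js ++ [j]).get ((i'.castSucc).cast (by simp)) = js.get i' := by
        simp only [List.get_eq_getElem, Fin.val_cast, Fin.val_castSucc]
        exact List.getElem_append_left i'.2
      rw [e3]
      have e4 : js.get i' ≠ j := fun h => hj (h ▸ js.get_mem i')
      change (if js.get i' = j then _ else _) = s.pt (js.get i', .inr (0, y))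
      rw [if_neg e4]
      change (if js.get i' = j then _ else _) = s.pt (js.get i', .inr (0, y))
      rw [if_neg e4]
    · rw [Fin.snoc_last]
      have e3 : (js ++ [j]).get ((Fin.last js.length).cast (by simp)) = j := by
        simp only [List.get_eq_getElem, Fin.val_cast, Fin.val_last]
        exact List.getElem_concat_length rfl _
      rw [e3]
      exact s1_self j 0 x _ y

/-- a permutation of a list without repetitions -/
lemma exists_perm {js js' : List ℕ} (hnd : js.Nodup) (hp : js'.Perm js) :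
    ∃ σ : Equiv.Perm (Fin js.length), js' = List.ofFn fun i => js.get (σ i) := by
  have hlen : js'.length = js.length := hp.length_eq
  have hnd' : js'.Nodup := hp.nodup_iff.2 hnd
  have h1 : ∀ i : Fin js.length, ∃ i' : Fin js.length, js.get i' = js'.get (i.cast hlen.symm) := by
    intro i
    have h2 : js'.get (i.cast hlen.symm) ∈ js := hp.mem_iff.1 (js'.get_mem _)
    obtain ⟨n, hn⟩ := List.mem_iff_get.1 h2
    exact ⟨n, hn⟩
  choose f hf using h1
  have hfi : Function.Injective f := by
    intro i i' h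
    have h2 : js'.get (i.cast hlen.symm) = js'.get (i'.cast hlen.symm) := by
      rw [← hf, ← hf, h]
    have h3 := (List.nodup_iff_injective_get.1 hnd') h2
    have h4 : (i.cast hlen.symm : Fin js'.length).val = (i'.cast hlen.symm : Fin js'.length).val :=
      congrArg Fin.val h3
    exact Fin.ext h4
  refine ⟨Equiv.ofBijective f (Finite.injective_iff_bijective.1 hfi), ?_⟩
  refine List.ext_get (by simp [hlen]) fun n h1 h2 => ?_
  rw [List.get_ofFn]
  have h3 : n < js.length := by rw [← hlen]; exact h1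
  have h4 := hf ⟨n, h3⟩
  exact h4.symm

lemma ofFn_eq {n : ℕ} {α : Type} (f : Fin n → α) : List.ofFn f = (List.finRange n).map f := by
  rw [List.ofFn_eq_map]

lemma map_rows (g : Idx (kc + ku) k → ℕ) (js : List ℕ) :
    ((js.map fun j => row j 0).flatten).map g =
      (js.map fun j => List.ofFn fun y => g (j, .inr (0, y))).flatten := by
  rw [List.map_flatten, List.map_map]
  congr 1
  refine List.map_congr_left fun j _ => ?_
  change (row j 0).map g = _
  unfold row prt
  rw [List.map_map, ofFn_eq]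
  rfl

/-! ## Programs by chunks -/

lemma prg_chunks {P : ℕ → List (ℕ × ℕ × ℕ)} {cs : List ℕ} (hcs : cs.Pairwise (· < ·))
    (h1 : ∀ i, ∀ a ∈ P i, a.1 = i) (h2 : ∀ i, (P i).Pairwise ilt)
    (h3 : ∀ i, ∀ a ∈ P i, a.2.1 ≤ 2 ∧ (a.2.1 ≠ 1 → a.2.2 = 0)) (h4 : ∀ i, (i, 0, 0) ∈ P i) :
    Prg ∅ (cs.flatMap P) := by
  refine ⟨?_, ?_, fun a _ b hb => absurd hb (by simp), ?_⟩
  · rw [List.pairwise_flatMap]
    refine ⟨fun i _ => h2 i, hcs.imp fun {a b} hab x hx y hy => Or.inl ?_⟩
    rw [h1 a x hx, h1 b y hy]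
    exact hab
  · intro a ha
    obtain ⟨i, -, hi⟩ := List.mem_flatMap.1 ha
    exact h3 i a hi
  · intro a ha
    obtain ⟨i, hi, hi'⟩ := List.mem_flatMap.1 ha
    refine Or.inl (List.mem_flatMap.2 ⟨i, hi, ?_⟩)
    rw [h1 i a hi']
    exact h4 i

/-- the program of a full chunk -/
def chk (s i : ℕ) : List (ℕ × ℕ × ℕ) :=
  (i, 0, 0) :: ((List.range s).map fun m => (i, 1, m)) ++ [(i, 2, 0)]

lemma chk_fst {s i : ℕ} : ∀ a ∈ chk s i, a.1 = i := by
  intro a ha
  unfold chk at ha
  simp only [List.cons_append, List.mem_cons, List.mem_append, List.mem_map, List.mem_range,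
    List.not_mem_nil, or_false] at ha
  rcases ha with rfl | ⟨m, -, rfl⟩ | rfl <;> rfl

lemma chk_val {s i : ℕ} : ∀ a ∈ chk s i, a.2.1 ≤ 2 ∧ (a.2.1 ≠ 1 → a.2.2 = 0) := by
  intro a ha
  unfold chk at ha
  simp only [List.cons_append, List.mem_cons, List.mem_append, List.mem_map, List.mem_range,
    List.not_mem_nil, or_false] at ha
  rcases ha with rfl | ⟨m, -, rfl⟩ | rfl <;> simp

lemma chk_ord {s i : ℕ} : (chk s i).Pairwise ilt := by
  unfold chk
  rw [List.cons_append, List.pairwise_cons, List.pairwise_append, List.pairwise_map]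
  refine ⟨?_, ?_, List.pairwise_singleton _ _, ?_⟩
  · intro a ha
    simp only [List.mem_append, List.mem_map, List.mem_range, List.mem_singleton] at ha
    rcases ha with ⟨m, -, rfl⟩ | rfl
    · exact Or.inr ⟨rfl, Or.inl (by norm_num)⟩
    · exact Or.inr ⟨rfl, Or.inl (by norm_num)⟩
  · exact List.pairwise_lt_range.imp fun h => Or.inr ⟨rfl, Or.inr ⟨rfl, h⟩⟩
  · intro a ha b hb
    simp only [List.mem_map, List.mem_range, List.mem_singleton] at ha hb
    obtain ⟨m, -, rfl⟩ := ha
    subst hb
    exact Or.inr ⟨rfl, Or.inl (by norm_num)⟩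

lemma chk_mem {s : ℕ} {p : Idx (kc + ku) k} (hp : ∀ q, p.2 = .inr q → q.1 < s) :
    itp p ∈ chk s p.1 := by
  obtain ⟨i, z⟩ := p
  unfold chk itp
  rcases z with b | q
  · simp only [Sum.elim_inl]
    by_cases hb : b.val < kc
    · rw [if_pos hb]
      simp
    · rw [if_neg hb]
      simp
  · have h1 := hp q rfl
    simp only [Sum.elim_inr]
    refine List.mem_append_left _ (List.mem_cons_of_mem _ (List.mem_map.2 ⟨q.1, ?_, rfl⟩))
    exact List.mem_range.2 h1

/-- the mixed program -/
def mixP (n s i : ℕ) : List (ℕ × ℕ × ℕ) := if i < n then chk s i else [(i, 0, 0), (i, 1, 0)]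

lemma prg_mix {n s : ℕ} {js : List ℕ} (hjs : js.Pairwise (· < ·)) (hn : ∀ j ∈ js, n ≤ j) :
    Prg ∅ ((List.range n).flatMap (chk s) ++ far js) := by
  have h1 : (List.range n).flatMap (chk s) ++ far js = (List.range n ++ js).flatMap (mixP n s) := by
    rw [List.flatMap_append]
    congr 1
    · refine List.flatMap_congr fun i hi => ?_
      unfold mixP
      rw [if_pos (List.mem_range.1 hi)]
    · unfold far
      refine List.flatMap_congr fun i hi => ?_
      unfold mixP
      rw [if_neg (not_lt.2 (hn i hi))]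
  rw [h1]
  refine prg_chunks ?_ ?_ ?_ ?_ ?_
  · rw [List.pairwise_append]
    exact ⟨List.pairwise_lt_range, hjs, fun a ha b hb => (List.mem_range.1 ha).trans_le (hn b hb)⟩
  · intro i a ha
    unfold mixP at ha
    split_ifs at ha
    · exact chk_fst a ha
    · simp only [List.mem_cons, List.not_mem_nil, or_false] at ha
      rcases ha with rfl | rfl <;> rfl
  · intro i
    unfold mixP
    split_ifs
    · exact chk_ord
    · rw [List.pairwise_cons]
      refine ⟨fun a ha => ?_, List.pairwise_singleton _ _⟩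
      rw [List.mem_singleton.1 ha]
      exact Or.inr ⟨rfl, Or.inl (by norm_num)⟩
  · intro i a ha
    unfold mixP at ha
    split_ifs at ha
    · exact chk_val a ha
    · simp only [List.mem_cons, List.not_mem_nil, or_false] at ha
      rcases ha with rfl | rfl <;> simp
  · intro i
    unfold mixP
    split_ifs
    · unfold chk
      simp
    · simp

/-- a bound for the rows of a list -/
lemma exists_bound (l : List (Idx (kc + ku) k)) : ∃ s : ℕ, ∀ p ∈ l, ∀ q, p.2 = .inr q → q.1 < s := by
  induction l with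
  | nil => exact ⟨0, by simp⟩
  | cons p l ih =>
    obtain ⟨s, hs⟩ := ih
    refine ⟨s + Sum.elim (fun _ => 0) (fun q => q.1 + 1) p.2, fun p' hp' q hq => ?_⟩
    rcases List.mem_cons.1 hp' with rfl | h
    · rw [hq]
      simp only [Sum.elim_inr]
      omega
    · exact (hs p' h q hq).trans_le (Nat.le_add_right _ _)

/-- FSD: symmetric powers of the limit give symmetric far rows. -/
theorem pf_FSD (hTDV : T_TDV) : T_FSD := by
  intro C kc ku k q M D hM hOK hsym n l js js' hl hjs hn hq hp
  obtain ⟨s, hs⟩ := exists_bound l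
  have hprg : Prg ∅ ((List.range n).flatMap (chk s) ++ far js) := prg_mix hjs hn
  have hmem1 : ∀ p ∈ l, itp p ∈ (List.range n).flatMap (chk s) ++ far js := fun p hp =>
    List.mem_append_left _ (List.mem_flatMap.2 ⟨p.1, List.mem_range.2 (hl p hp),
      chk_mem (hs p hp)⟩)
  have hmem2 : ∀ j ∈ js, ∀ p ∈ (row j 0 : List (Idx (kc + ku) k)),
      itp p ∈ (List.range n).flatMap (chk s) ++ far js := by
    intro j hj p hp
    refine List.mem_append_right _ (List.mem_flatMap.2 ⟨j, hj, ?_⟩)
    unfold row prt at hp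
    obtain ⟨y, -, rfl⟩ := List.mem_map.1 hp
    simp [itp]
  funext w
  have h1 := hTDV C kc ku k M D hM (l ++ (js'.map fun j => row j 0).flatten) _ hprg (by
    intro p hp'
    rcases List.mem_append.1 hp' with h | h
    · exact hmem1 p h
    · obtain ⟨a, ha, ha'⟩ := List.mem_flatten.1 h
      obtain ⟨j, hj, rfl⟩ := List.mem_map.1 ha
      exact hmem2 j (hp.mem_iff.1 hj) p ha') st0 w
  have h2 := hTDV C kc ku k M D hM (l ++ (js.map fun j => row j 0).flatten) _ hprg (by
    intro p hp'
    rcases List.mem_append.1 hp' with h | h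
    · exact hmem1 p h
    · obtain ⟨a, ha, ha'⟩ := List.mem_flatten.1 h
      obtain ⟨j, hj, rfl⟩ := List.mem_map.1 ha
      exact hmem2 j hj p ha') st0 w
  rw [ev_append] at h1 h2
  obtain ⟨t, ht1, ht2⟩ := (h1.and h2).exists
  have hkeep : ∀ᶠ s' in (run D (far js) t : Filter (Sta kc ku k)), l.map s'.pt = l.map t.pt := by
    refine run_keep_list (fun p hp it hit => ?_) t
    obtain ⟨j, hj, hj'⟩ := List.mem_flatMap.1 hit
    have e1 : it.1 = j := by
      simp only [List.mem_cons, List.not_mem_nil, or_false] at hj'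
      rcases hj' with rfl | rfl <;> rfl
    rw [e1]
    have e2 := hl p hp
    have e3 := hn j hj
    omega
  obtain ⟨σ, hσ⟩ := exists_perm (hjs.imp fun h => h.ne) hp
  have hsy := hsym js.length hq (D.z ++ l.map t.pt) σ
  have hdist := (far_dist (D := D) js js.length rfl (hjs.imp fun h => h.ne) t (fun xs =>
    ft M ((D.z ++ l.map t.pt) ++ H71.HCI.fl (xs ∘ σ)) =
      ft M ((D.z ++ l.map t.pt) ++ H71.HCI.fl xs))).2 hsy
  obtain ⟨s', k1, k2, k3, k4⟩ := (ht1.and (ht2.and (hkeep.and hdist))).exists
  rw [← k1, ← k2]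
  have k5 := congrFun k4 w
  unfold ft at k5
  rw [List.map_append, List.map_append, k3, map_rows, map_rows, ← List.append_assoc,
    ← List.append_assoc]
  have e1 : (js'.map fun j => List.ofFn fun y => s'.pt (j, .inr (0, y))).flatten =
      H71.HCI.fl ((fun (i : Fin js.length) (y : Fin k) =>
        s'.pt (js.get (i.cast rfl), .inr (0, y))) ∘ σ) := by
    unfold H71.HCI.fl
    congr 1
    rw [hσ, List.map_ofFn]
    rfl
  have e2 : (js.map fun j => List.ofFn fun y => s'.pt (j, .inr (0, y))).flatten =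
      H71.HCI.fl (fun (i : Fin js.length) (y : Fin k) =>
        s'.pt (js.get (i.cast rfl), .inr (0, y))) := by
    unfold H71.HCI.fl
    congr 1
    conv_lhs => rw [← List.ofFn_get js]
    rw [List.map_ofFn]
    rfl
  rw [e1, e2]
  exact k5

/-! ## Rows of one chunk -/

/-- the program of `q` rows of the chunk `i` -/
def blk (i q : ℕ) : List (ℕ × ℕ × ℕ) := (List.range q).map fun m => (i, 1, m)

lemma step_row_j {i m : ℕ} (st : Sta kc ku k) :
    ∀ᶠ s in (step D (i, 1, m) st : Filter (Sta kc ku k)), s.j = st.j := by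
  rw [ev_row]
  exact Filter.Eventually.of_forall fun y => rfl

lemma blk_j (i q : ℕ) (st : Sta kc ku k) :
    ∀ᶠ s in (run D (blk i q) st : Filter (Sta kc ku k)), s.j = st.j := by
  induction q with
  | zero =>
    change ∀ᶠ s in (run D [] st : Filter (Sta kc ku k)), _
    rw [ev_nil]
  | succ q ih =>
    have e1 : blk i (q + 1) = blk i q ++ [(i, 1, q)] := by
      unfold blk
      rw [List.range_succ, List.map_append]
      rfl
    rw [e1, ev_append]
    filter_upwards [ih] with s hs
    rw [ev_cons]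
    filter_upwards [step_row_j (D := D) (i := i) (m := q) s] with s' hs'
    rw [ev_nil, hs', hs]

lemma blk_hub (i q : ℕ) (b : Fin (kc + ku)) (i' : ℕ) (st : Sta kc ku k) :
    ∀ᶠ s in (run D (blk i q) st : Filter (Sta kc ku k)),
      s.pt (i', .inl b) = st.pt (i', .inl b) := by
  induction q with
  | zero =>
    change ∀ᶠ s in (run D [] st : Filter (Sta kc ku k)), _
    rw [ev_nil]
  | succ q ih =>
    have e1 : blk i (q + 1) = blk i q ++ [(i, 1, q)] := by
      unfold blk
      rw [List.range_succ, List.map_append]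
      rfl
    rw [e1, ev_append]
    filter_upwards [ih] with s hs
    rw [ev_cons, ev_row]
    refine Filter.Eventually.of_forall fun y => ?_
    rw [ev_nil, ← hs]
    change (if i' = i then _ else _) = _
    split_ifs <;> rfl

/-- the distribution of the rows of a chunk -/
lemma blk_dist (i q : ℕ) (st : Sta kc ku k) (φ : (Fin q → Fin k → ℕ) → Prop) :
    (∀ᶠ s in (run D (blk i q) st : Filter (Sta kc ku k)), φ fun m y => s.pt (i, .inr (m, y))) ↔
      ∀ᶠ xs in (H71.HCI.pw (D.V (st.j i)) q : Filter (Fin q → Fin k → ℕ)), φ xs := by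
  induction q with
  | zero =>
    change (∀ᶠ s in (run D [] st : Filter (Sta kc ku k)), _) ↔ _
    rw [ev_nil]
    change _ ↔ ∀ᶠ xs in ((pure fun i => i.elim0 : Ultrafilter (Fin 0 → Fin k → ℕ)) :
      Filter (Fin 0 → Fin k → ℕ)), φ xs
    rw [Ultrafilter.coe_pure, Filter.eventually_pure]
    have h1 : (fun (m : Fin 0) (y : Fin k) => st.pt (i, .inr ((m : ℕ), y))) = fun m => m.elim0 :=
      funext fun m => m.elim0
    exact iff_of_eq (congrArg φ h1)
  | succ q ih =>
    have e1 : blk i (q + 1) = blk i q ++ [(i, 1, q)] := by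
      unfold blk
      rw [List.range_succ, List.map_append]
      rfl
    rw [e1, ev_append]
    change _ ↔ ∀ᶠ xs in ((H71.HCI.pw (D.V (st.j i)) q).bind fun xs =>
      (D.V (st.j i)).map fun x => Fin.snoc (α := fun _ => Fin k → ℕ) xs x :
        Ultrafilter (Fin (q + 1) → Fin k → ℕ)), φ xs
    rw [H71.HCI.mem_bind, ← ih]
    refine Filter.eventually_congr ?_
    filter_upwards [blk_j i q st] with s hs
    rw [ev_cons, ev_row, hs]
    change _ ↔ ∀ᶠ x in (D.V (st.j i) : Filter (Fin k → ℕ)), φ _
    refine Filter.eventually_congr (Filter.Eventually.of_forall fun x => ?_)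
    rw [ev_nil]
    refine iff_of_eq (congrArg φ (funext fun m => funext fun y => ?_))
    rcases Fin.eq_castSucc_or_eq_last m with ⟨m', rfl⟩ | rfl
    · rw [Fin.snoc_castSucc]
      change (if i = i then (if ((m'.castSucc : Fin (q + 1)) : ℕ) = q then x y else
        s.pt (i, .inr (_, y))) else _) = s.pt (i, .inr (_, y))
      have h3 : ((m'.castSucc : Fin (q + 1)) : ℕ) = m' := rfl
      rw [if_pos rfl, if_neg (by rw [h3]; exact m'.2.ne)]
      rfl
    · rw [Fin.snoc_last]
      exact s1_self i q x s y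

lemma map_blk (g : Idx (kc + ku) k → ℕ) (i : ℕ) (ms : List ℕ) :
    ((ms.map (row i)).flatten).map g =
      (ms.map fun m => List.ofFn fun y => g (i, .inr (m, y))).flatten := by
  rw [List.map_flatten, List.map_map]
  congr 1
  refine List.map_congr_left fun m _ => ?_
  change (row i m).map g = _
  unfold row prt
  rw [List.map_map, ofFn_eq]
  rfl

/-- BLD: symmetric powers of the members give symmetric rows over the constants. -/
theorem pf_BLD (hTDV : T_TDV) : T_BLD := by
  intro C kc k q M D hM hOK hsym J js' hp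
  let σ0 : List (ℕ × ℕ × ℕ) := (0, 0, 0) :: blk 0 q
  have hprg : Prg ∅ σ0 := by
    refine ⟨?_, ?_, fun a _ b hb => absurd hb (by simp), ?_⟩
    · rw [List.pairwise_cons]
      constructor
      · intro a ha
        obtain ⟨m, -, rfl⟩ := List.mem_map.1 ha
        exact Or.inr ⟨rfl, Or.inl (by norm_num)⟩
      · unfold blk
        rw [List.pairwise_map]
        exact List.pairwise_lt_range.imp fun h => Or.inr ⟨rfl, Or.inr ⟨rfl, h⟩⟩
    · intro a ha
      rcases List.mem_cons.1 ha with rfl | h
      · simp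
      · obtain ⟨m, -, rfl⟩ := List.mem_map.1 h
        simp
    · intro a ha
      left
      rcases List.mem_cons.1 ha with rfl | h
      · exact List.mem_cons_self ..
      · obtain ⟨m, -, rfl⟩ := List.mem_map.1 h
        exact List.mem_cons_self ..
  have hmem1 : ∀ p ∈ (hub 0 J : List (Idx (kc + 0) k)), itp (kc := kc) (ku := 0) p ∈ σ0 := by
    intro p hp
    unfold hub at hp
    obtain ⟨b, -, rfl⟩ := List.mem_map.1 hp
    have hb : b.val < kc := b.2
    change (0, if b.val < kc then (0, 0) else (2, 0)) ∈ σ0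
    rw [if_pos hb]
    exact List.mem_cons_self ..
  have hmem2 : ∀ m ∈ List.range q, ∀ p ∈ (row 0 m : List (Idx (kc + 0) k)),
      itp (kc := kc) (ku := 0) p ∈ σ0 := by
    intro m hm p hp
    unfold row prt at hp
    obtain ⟨y, -, rfl⟩ := List.mem_map.1 hp
    exact List.mem_cons_of_mem _ (List.mem_map.2 ⟨m, hm, rfl⟩)
  funext w
  have h1 := hTDV C kc 0 k M D hM (hub 0 J ++ (js'.map (row 0)).flatten) _ hprg (by
    intro p hp'
    rcases List.mem_append.1 hp' with h | h
    · exact hmem1 p h
    · obtain ⟨a, ha, ha'⟩ := List.mem_flatten.1 h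
      obtain ⟨j, hj, rfl⟩ := List.mem_map.1 ha
      exact hmem2 j (hp.mem_iff.1 hj) p ha') st0 w
  have h2 := hTDV C kc 0 k M D hM (hub 0 J ++ ((List.range q).map (row 0)).flatten) _ hprg (by
    intro p hp'
    rcases List.mem_append.1 hp' with h | h
    · exact hmem1 p h
    · obtain ⟨a, ha, ha'⟩ := List.mem_flatten.1 h
      obtain ⟨j, hj, rfl⟩ := List.mem_map.1 ha
      exact hmem2 j hj p ha') st0 w
  rw [ev_cons, ev_start] at h1 h2
  obtain ⟨jj, hj1, hj2, hsy⟩ := (h1.and (h2.and hsym)).exists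
  set t : Sta kc 0 k := s0 D 0 jj st0 with ht
  have htj : t.j 0 = jj := by
    simp [ht, s0]
  have hkeep : ∀ᶠ s' in (run D (blk 0 q) t : Filter (Sta kc 0 k)),
      (hub 0 J).map s'.pt = (hub 0 J).map t.pt := by
    have h3 : ∀ᶠ s' in (run D (blk 0 q) t : Filter (Sta kc 0 k)), ∀ b : Fin kc,
        s'.pt (0, .inl b) = t.pt (0, .inl b) := by
      rw [Filter.eventually_all]
      exact fun b => blk_hub (kc := kc) (ku := 0) 0 q b 0 t
    filter_upwards [h3] with s' hs'
    unfold hub
    rw [List.map_map, List.map_map]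
    exact List.map_congr_left fun b _ => hs' b
  have hlq : (List.range q).length = q := List.length_range
  obtain ⟨σ, hσ⟩ := exists_perm List.nodup_range hp
  let σ' : Equiv.Perm (Fin q) := (finCongr hlq).symm.trans (σ.trans (finCongr hlq))
  have hσ' : js' = List.ofFn fun i : Fin q => (σ' i : ℕ) := by
    rw [hσ]
    refine List.ext_getElem (by simp) fun n h1 h2 => ?_
    simp [σ']
  have hsy' := hsy (D.z ++ (hub 0 J).map t.pt) σ'
  have hdist := (blk_dist (D := D) 0 q t (fun xs =>
    ft M ((D.z ++ (hub 0 J).map t.pt) ++ H71.HCI.fl (xs ∘ σ')) =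
      ft M ((D.z ++ (hub 0 J).map t.pt) ++ H71.HCI.fl xs))).2 (by rw [htj]; exact hsy')
  obtain ⟨s', k1, k2, k3, k4⟩ := (hj1.and (hj2.and (hkeep.and hdist))).exists
  rw [← k1, ← k2]
  have k5 := congrFun k4 w
  unfold ft at k5
  rw [List.map_append, List.map_append, k3]
  have m1 := map_blk (kc := kc) (ku := 0) s'.pt 0 js'
  have m2 := map_blk (kc := kc) (ku := 0) s'.pt 0 (List.range q)
  rw [m1, m2, ← List.append_assoc, ← List.append_assoc]
  have e1 : (js'.map fun m => List.ofFn fun y => s'.pt (0, .inr (m, y))).flatten =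
      H71.HCI.fl ((fun (m : Fin q) (y : Fin k) => s'.pt (0, .inr ((m : ℕ), y))) ∘ σ') := by
    unfold H71.HCI.fl
    congr 1
    rw [hσ', List.map_ofFn]
    rfl
  have e2 : ((List.range q).map fun m => List.ofFn fun y => s'.pt (0, .inr (m, y))).flatten =
      H71.HCI.fl (fun (m : Fin q) (y : Fin k) => s'.pt (0, .inr ((m : ℕ), y))) := by
    unfold H71.HCI.fl
    congr 1
    refine List.ext_getElem (by simp) fun n h1 h2 => ?_
    simp
  rw [e1, e2]
  exact k5

end Pool.Agent.H41.FKI
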